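import Pool.Agent.RelPoly.More

/-!
String functions in the typed setting, for an arbitrary class `C`.
-/

set_option linter.dupNamespace false

namespace Pool.Agent.RelPoly

open Pool.Agent.PolyTime hiding FP PolyTime

variable {C : PCl} {α β γ : Type} [PEnc α] [PEnc β] [PEnc γ]

/-- raw string functions are typed string functions -/
theorem PT.of_FC {f : List Bool → List Bool} (hf : FC C f) : PT C f := by
  obtain ⟨D, hD, hD'⟩ := exists_decString
  exact ⟨fun x => enc (f (D x)), (FC.base FP_encString).comp (hf.comp (FC.base hD)), fun a => by
    beta_reduce; rw [hD']⟩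

/-- and conversely -/
theorem PT.toFC {f : List Bool → List Bool} (hf : PT C f) : FC C f := by
  obtain ⟨D, hD, hD'⟩ := exists_decString
  obtain ⟨F, hF, hF'⟩ := hf
  exact ((FC.base hD).comp (hF.comp (FC.base FP_encString))).congr (fun x => by rw [hF', hD'])

@[fun_prop]
protected theorem PT.p1 {f : α → List Bool} (hf : PT C f) : PT C (fun a => p1 (f a)) :=
  (PT.of_FC FC.p1).comp hf

@[fun_prop]
protected theorem PT.p2 {f : α → List Bool} (hf : PT C f) : PT C (fun a => p2 (f a)) :=
  (PT.of_FC FC.p2).comp hf

@[fun_prop]
protected theorem PT.pr {f g : α → List Bool} (hf : PT C f) (hg : PT C g) :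
    PT C (fun a => pr (f a) (g a)) := by
  unfold Pool.Agent.PolyTime.pr
  fun_prop

/-- changing a value at one point -/
theorem PT.update [DecidableEq α] {f : α → β} (hf : PT C f) (a₀ : α) (b₀ : β) :
    PT C (fun a => if a = a₀ then b₀ else f a) := by
  exact PT.ite (by fun_prop) (PT.const _) hf

/-- changing finitely many values -/
theorem PT.of_finite [DecidableEq α] {f : α → β} (hf : PT C f) (g : α → β)
    (h : {a | f a ≠ g a}.Finite) : PT C g := by
  have key : ∀ (s : Finset α) (f : α → β), PT C f → (∀ a, f a ≠ g a → a ∈ s) → PT C g := by
    intro s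
    induction s using Finset.induction_on with
    | empty =>
      intro f hf h
      refine hf.congr (fun a => ?_)
      by_contra h'
      exact absurd (h a h') (by simp)
    | insert a s _ ih =>
      intro f hf h
      refine ih (fun x => if x = a then g a else f x) (PT.update hf a (g a)) ?_
      intro x hx
      by_cases hxa : x = a
      · subst hxa; simp at hx
      · simp only [hxa, if_false] at hx
        have := h x hx
        simpa [hxa] using this
  exact key h.toFinset f hf (fun a ha => by simpa using ha)

end Pool.Agent.RelPoly
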