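import Pool.Agent.RelPoly.OClos
import Pool.Agent.RelPoly.Strings
import Mathlib.Tactic.DeriveCountable

/-!
Determinism of oracle programs, the use principle, a countable set of machines.
-/

namespace Pool.Agent.RelPoly

open Function Pool.Agent.PolyTime Pool.Agent.PolyTime.Prog

set_option linter.unusedSectionVars false

deriving instance Countable for OProg

namespace OProg

variable {Ω : Set (List Bool)} {K : Type} [DecidableEq K]

theorem OExec.det {p : OProg K} {S S₁ : St K} {t₁ : ℕ} (h₁ : OExec Ω p S S₁ t₁) :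
    ∀ {S₂ : St K} {t₂ : ℕ}, OExec Ω p S S₂ t₂ → S₁ = S₂ ∧ t₁ = t₂ := by
  induction h₁ with
  | skip S => intro S₂ t₂ h; cases h; exact ⟨rfl, rfl⟩
  | push k b S => intro S₂ t₂ h; cases h; exact ⟨rfl, rfl⟩
  | pop k S => intro S₂ t₂ h; cases h; exact ⟨rfl, rfl⟩
  | ask k S => intro S₂ t₂ h; cases h; exact ⟨rfl, rfl⟩
  | seq _ _ ih1 ih2 =>
    intro S₂ t₂ h
    cases h with
    | seq h1 h2 =>
      obtain ⟨rfl, rfl⟩ := ih1 h1
      obtain ⟨rfl, rfl⟩ := ih2 h2
      exact ⟨rfl, rfl⟩
  | ite_nil hk _ ih =>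
    intro S₂ t₂ h
    cases h with
    | ite_nil _ h1 =>
      obtain ⟨rfl, rfl⟩ := ih h1
      exact ⟨rfl, rfl⟩
    | ite_false hk' _ => rw [hk] at hk'; cases hk'
    | ite_true hk' _ => rw [hk] at hk'; cases hk'
  | ite_false hk _ ih =>
    intro S₂ t₂ h
    cases h with
    | ite_nil hk' _ => rw [hk] at hk'; cases hk'
    | ite_false _ h1 =>
      obtain ⟨rfl, rfl⟩ := ih h1
      exact ⟨rfl, rfl⟩
    | ite_true hk' _ => rw [hk] at hk'; cases hk'
  | ite_true hk _ ih =>
    intro S₂ t₂ h
    cases h with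
    | ite_nil hk' _ => rw [hk] at hk'; cases hk'
    | ite_false hk' _ => rw [hk] at hk'; cases hk'
    | ite_true _ h1 =>
      obtain ⟨rfl, rfl⟩ := ih h1
      exact ⟨rfl, rfl⟩
  | loop_nil hk =>
    intro S₂ t₂ h
    cases h with
    | loop_nil _ => exact ⟨rfl, rfl⟩
    | loop_false hk' _ _ => rw [hk] at hk'; cases hk'
    | loop_true hk' _ _ => rw [hk] at hk'; cases hk'
  | loop_false hk _ _ ih1 ih2 =>
    intro S₂ t₂ h
    cases h with
    | loop_nil hk' => rw [hk] at hk'; cases hk'
    | loop_false hk' h1 h2 =>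
      rw [hk] at hk'
      simp only [List.cons.injEq, true_and] at hk'
      subst hk'
      obtain ⟨rfl, rfl⟩ := ih1 h1
      obtain ⟨rfl, rfl⟩ := ih2 h2
      exact ⟨rfl, rfl⟩
    | loop_true hk' _ _ => rw [hk] at hk'; cases hk'
  | loop_true hk _ _ ih1 ih2 =>
    intro S₂ t₂ h
    cases h with
    | loop_nil hk' => rw [hk] at hk'; cases hk'
    | loop_false hk' _ _ => rw [hk] at hk'; cases hk'
    | loop_true hk' h1 h2 =>
      rw [hk] at hk'
      simp only [List.cons.injEq, true_and] at hk'
      subst hk'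
      obtain ⟨rfl, rfl⟩ := ih1 h1
      obtain ⟨rfl, rfl⟩ := ih2 h2
      exact ⟨rfl, rfl⟩

theorem length_le_tot [Fintype K] (S : St K) (k : K) : (S k).length ≤ tot S :=
  Finset.single_le_sum (f := fun k => (S k).length) (fun _ _ => Nat.zero_le _) (Finset.mem_univ k)

/-- The use principle: a computation with `t` steps depends on the oracle at no more than `t`
strings, all of them short. -/
theorem OExec.use [Fintype K] {p : OProg K} {S S' : St K} {t : ℕ} (h : OExec Ω p S S' t) :
    ∃ Q : Finset (List Bool), Q.card ≤ t ∧ (∀ q ∈ Q, q.length ≤ tot S + t) ∧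
      ∀ Ω' : Set (List Bool), (∀ q ∈ Q, (q ∈ Ω ↔ q ∈ Ω')) → OExec Ω' p S S' t := by
  classical
  induction h with
  | skip S => exact ⟨∅, by simp, by simp, fun Ω' _ => OExec.skip S⟩
  | push k b S => exact ⟨∅, by simp, by simp, fun Ω' _ => OExec.push k b S⟩
  | pop k S => exact ⟨∅, by simp, by simp, fun Ω' _ => OExec.pop k S⟩
  | ask k S =>
    refine ⟨{S k}, by simp, ?_, fun Ω' h => ?_⟩
    · intro q hq
      rw [Finset.mem_singleton] at hq
      subst hq
      exact (length_le_tot S k).trans (by omega)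
    · have h1 : ans Ω (S k) = ans Ω' (S k) := by
        unfold ans
        rw [decide_eq_decide]
        exact h _ (by simp)
      rw [h1]
      exact OExec.ask k S
  | @seq p q S S' S'' t t' h1 h2 ih1 ih2 =>
    obtain ⟨Q1, c1, l1, e1⟩ := ih1
    obtain ⟨Q2, c2, l2, e2⟩ := ih2
    have ht := h1.tot_le
    refine ⟨Q1 ∪ Q2, (Finset.card_union_le _ _).trans (by omega), ?_, fun Ω' h => ?_⟩
    · intro q hq
      rcases Finset.mem_union.1 hq with hq | hq
      · have := l1 q hq; omega
      · have := l2 q hq; omega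
    · exact OExec.seq (e1 Ω' (fun q hq => h q (Finset.mem_union_left _ hq)))
        (e2 Ω' (fun q hq => h q (Finset.mem_union_right _ hq)))
  | ite_nil hk _ ih =>
    obtain ⟨Q, c, l, e⟩ := ih
    exact ⟨Q, by omega, fun q hq => by have := l q hq; omega, fun Ω' h => OExec.ite_nil hk (e Ω' h)⟩
  | ite_false hk _ ih =>
    obtain ⟨Q, c, l, e⟩ := ih
    exact ⟨Q, by omega, fun q hq => by have := l q hq; omega, fun Ω' h => OExec.ite_false hk (e Ω' h)⟩
  | ite_true hk _ ih =>
    obtain ⟨Q, c, l, e⟩ := ih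
    exact ⟨Q, by omega, fun q hq => by have := l q hq; omega, fun Ω' h => OExec.ite_true hk (e Ω' h)⟩
  | loop_nil hk => exact ⟨∅, by simp, by simp, fun Ω' _ => OExec.loop_nil hk⟩
  | @loop_false k q r S S' S'' t t' w hk h1 h2 ih1 ih2 =>
    obtain ⟨Q1, c1, l1, e1⟩ := ih1
    obtain ⟨Q2, c2, l2, e2⟩ := ih2
    have ht := h1.tot_le
    have hu := tot_update S k w
    rw [hk] at hu
    simp only [List.length_cons] at hu
    refine ⟨Q1 ∪ Q2, (Finset.card_union_le _ _).trans (by omega), ?_, fun Ω' h => ?_⟩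
    · intro q hq
      rcases Finset.mem_union.1 hq with hq | hq
      · have := l1 q hq; omega
      · have := l2 q hq; omega
    · exact OExec.loop_false hk (e1 Ω' (fun q hq => h q (Finset.mem_union_left _ hq)))
        (e2 Ω' (fun q hq => h q (Finset.mem_union_right _ hq)))
  | @loop_true k q r S S' S'' t t' w hk h1 h2 ih1 ih2 =>
    obtain ⟨Q1, c1, l1, e1⟩ := ih1
    obtain ⟨Q2, c2, l2, e2⟩ := ih2
    have ht := h1.tot_le
    have hu := tot_update S k w
    rw [hk] at hu
    simp only [List.length_cons] at hu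
    refine ⟨Q1 ∪ Q2, (Finset.card_union_le _ _).trans (by omega), ?_, fun Ω' h => ?_⟩
    · intro q hq
      rcases Finset.mem_union.1 hq with hq | hq
      · have := l1 q hq; omega
      · have := l2 q hq; omega
    · exact OExec.loop_true hk (e1 Ω' (fun q hq => h q (Finset.mem_union_left _ hq)))
        (e2 Ω' (fun q hq => h q (Finset.mem_union_right _ hq)))

end OProg

open OProg

/-- A machine: a program with numbered registers, input and output registers, and a clock
`(|x| + 2) ^ k`. -/
structure Mach where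
  /-- number of registers -/
  n : ℕ
  /-- input register -/
  k₀ : Fin n
  /-- output register -/
  k₁ : Fin n
  /-- the program -/
  p : OProg (Fin n)
  /-- exponent of the clock -/
  k : ℕ

instance : Countable Mach := by
  let f : Mach → (Σ n : ℕ, Fin n × Fin n × OProg (Fin n) × ℕ) := fun M => ⟨M.n, M.k₀, M.k₁, M.p, M.k⟩
  have hf : Function.Injective f := by
    rintro ⟨n, k₀, k₁, p, k⟩ ⟨n', k₀', k₁', p', k'⟩ h
    simp only [f, Sigma.mk.injEq] at h
    obtain ⟨rfl, h⟩ := h
    simp only [heq_eq_eq, Prod.mk.injEq] at h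
    obtain ⟨rfl, rfl, rfl, rfl⟩ := h
    rfl
  exact hf.countable

/-- With oracle `Ω` and input `x`, the machine `M` outputs `y` within its time bound. -/
def Mach.Runs (M : Mach) (Ω : Set (List Bool)) (x y : List Bool) : Prop :=
  ∃ t, t ≤ (x.length + 2) ^ M.k ∧ OExec Ω M.p (single M.k₀ x) (single M.k₁ y) t

theorem Mach.Runs.det {M : Mach} {Ω : Set (List Bool)} {x y y' : List Bool} (h : M.Runs Ω x y)
    (h' : M.Runs Ω x y') : y = y' := by
  obtain ⟨t, -, h⟩ := h
  obtain ⟨t', -, h'⟩ := h'
  have h1 := (h.det h').1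
  have h2 := congrFun h1 M.k₁
  rwa [single_self, single_self] at h2

/-- bound for the length of the queries -/
def Mach.qb (M : Mach) (n : ℕ) : ℕ := n + (n + 2) ^ M.k

theorem Mach.qb_mono (M : Mach) {m n : ℕ} (h : m ≤ n) : M.qb m ≤ M.qb n := by
  unfold Mach.qb
  have := Nat.pow_le_pow_left (show m + 2 ≤ n + 2 by omega) M.k
  omega

theorem Mach.Runs.use {M : Mach} {Ω : Set (List Bool)} {x y : List Bool} (h : M.Runs Ω x y) :
    ∃ Q : Finset (List Bool), Q.card ≤ (x.length + 2) ^ M.k ∧ (∀ q ∈ Q, q.length ≤ M.qb x.length) ∧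
      ∀ Ω' : Set (List Bool), (∀ q ∈ Q, (q ∈ Ω ↔ q ∈ Ω')) → M.Runs Ω' x y := by
  obtain ⟨t, ht, h⟩ := h
  obtain ⟨Q, c, l, e⟩ := h.use
  refine ⟨Q, c.trans ht, ?_, fun Ω' h => ⟨t, ht, e Ω' h⟩⟩
  intro q hq
  have := l q hq
  rw [tot_single] at this
  unfold Mach.qb
  omega

theorem OFP_iff_mach {Ω : Set (List Bool)} {f : List Bool → List Bool} :
    OFP Ω f ↔ ∃ M : Mach, ∀ x, M.Runs Ω x (f x) := by
  constructor
  · rintro ⟨K, i1, i2, k₀, k₁, p, P, h⟩
    obtain ⟨k, hk⟩ := exists_pow_bound P
    let e : K ≃ Fin (Fintype.card K) := Fintype.equivFin K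
    refine ⟨⟨Fintype.card K, e k₀, e k₁, p.map e, k⟩, fun x => ?_⟩
    obtain ⟨t, ht, he⟩ := h x
    refine ⟨t, ht.trans (hk _), ?_⟩
    have hs : ∀ (k : K) (y : List Bool) (j : K), (single (e k) y) (e j) = single k y j := by
      intro k y j
      by_cases hj : j = k
      · subst hj; simp [single]
      · have : e j ≠ e k := fun h => hj (e.injective h)
        simp [single, hj, this]
    have h1 := he.map e.injective (single (e k₀) x) (fun j => hs k₀ x j)
    refine h1.cast rfl ?_ rfl
    funext j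
    obtain ⟨i, rfl⟩ := e.surjective j
    rw [ov_apply e.injective, hs]
  · rintro ⟨M, h⟩
    refine ⟨Fin M.n, inferInstance, inferInstance, M.k₀, M.k₁, M.p,
      (Polynomial.X + 2) ^ M.k, fun x => ?_⟩
    obtain ⟨t, ht, he⟩ := h x
    exact ⟨t, by rw [pow_bound_eval]; exact ht, he⟩

instance countable_OFP (Ω : Set (List Bool)) : Countable {f : List Bool → List Bool // OFP Ω f} := by
  let F : {f : List Bool → List Bool // OFP Ω f} → Mach := fun f => (OFP_iff_mach.1 f.2).choose
  have hF : Function.Injective F := by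
    intro f g h
    apply Subtype.ext
    funext x
    have h1 := (OFP_iff_mach.1 f.2).choose_spec x
    have h2 := (OFP_iff_mach.1 g.2).choose_spec x
    have h3 : (OFP_iff_mach.1 f.2).choose = (OFP_iff_mach.1 g.2).choose := h
    rw [h3] at h1
    exact h1.det h2
  exact hF.countable

/-- the functions between encoded types in a countable class are countably many -/
theorem countable_PT {C : PCl} (hC : Countable {f : List Bool → List Bool // FC C f})
    {α β : Type} [PEnc α] [PEnc β] : Countable {f : α → β // PT C f} := by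
  let F : {f : α → β // PT C f} → {f : List Bool → List Bool // FC C f} :=
    fun f => ⟨f.2.choose, f.2.choose_spec.1⟩
  have hF : Function.Injective F := by
    intro f g h
    apply Subtype.ext
    funext a
    have h1 := f.2.choose_spec.2 a
    have h2 := g.2.choose_spec.2 a
    have h3 : f.2.choose = g.2.choose := congrArg Subtype.val h
    rw [h3, h2] at h1
    exact PEnc.inj h1.symm
  exact hF.countable

theorem countable_orc (Ω : Set (List Bool)) {α β : Type} [PEnc α] [PEnc β] :
    Countable {f : α → β // PT (orc Ω) f} := countable_PT (C := orc Ω) (countable_OFP Ω)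

theorem countable_poly {α β : Type} [PEnc α] [PEnc β] : Countable {f : α → β // PT poly f} := by
  refine countable_PT ?_
  let F : {f : List Bool → List Bool // FC poly f} → {f : List Bool → List Bool // OFP ∅ f} :=
    fun f => ⟨f.1, OFP.base f.2⟩
  have hF : Function.Injective F := by
    intro f g h
    simp only [F, Subtype.mk.injEq] at h
    exact Subtype.ext h
  have := countable_OFP ∅
  exact hF.countable

end Pool.Agent.RelPoly
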