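import Pool.Agent.PolyTime.Cert

/-!
# Relativised polynomial time, abstractly

A `PCl` is a class of string functions that contains all polynomial-time functions and has the
closure properties of polynomial time: composition, pairing, case distinction, polynomially
bounded iteration; all its members have polynomially bounded output length.  The functions that
are polynomial-time computable relative to an oracle form such a class.  The typed library of
`Pool.Agent.PolyTime` is redone here for an arbitrary `PCl`.
-/

namespace Pool.Agent.RelPoly

open Pool.Agent.PolyTime

/-- A class of string functions with the closure properties of polynomial time. -/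
structure PCl where
  /-- membership in the class -/
  mem : (List Bool → List Bool) → Prop
  /-- it contains the polynomial-time functions -/
  base : ∀ {f}, Pool.Agent.PolyTime.FP f → mem f
  /-- closure under composition -/
  comp : ∀ {g f}, mem g → mem f → mem (fun x => g (f x))
  /-- closure under pairing -/
  pair : ∀ {f g}, mem f → mem g → mem (fun x => pr (f x) (g x))
  /-- closure under case distinction -/
  cases : ∀ {c f g h}, mem c → mem f → mem g → mem h → mem (fun x => match c x with
      | [] => f x
      | false :: _ => g x
      | true :: _ => h x)
  /-- closure under polynomially bounded iteration -/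
  iter : ∀ {f g h}, mem f → mem g → mem h → ∀ p : Polynomial ℕ,
    (∀ x i, i ≤ (g x).length → (f^[i] (h x)).length ≤ p.eval x.length) →
    mem (fun x => f^[(g x).length] (h x))
  /-- the output length is polynomially bounded -/
  length_le : ∀ {f}, mem f → ∃ p : Polynomial ℕ, ∀ x, (f x).length ≤ p.eval x.length

/-- membership in the class -/
def FC (C : PCl) (f : List Bool → List Bool) : Prop := C.mem f

variable {C : PCl}

protected theorem FC.base {f : List Bool → List Bool} (h : Pool.Agent.PolyTime.FP f) : FC C f := C.base h

protected theorem FC.id : FC C (fun x => x) := FC.base Pool.Agent.PolyTime.FP.id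

protected theorem FC.nil : FC C (fun _ => []) := FC.base Pool.Agent.PolyTime.FP.nil

protected theorem FC.cons (b : Bool) : FC C (fun x => b :: x) :=
  FC.base (Pool.Agent.PolyTime.FP.cons b)

protected theorem FC.tail : FC C (fun x => x.tail) := FC.base Pool.Agent.PolyTime.FP.tail

protected theorem FC.p1 : FC C p1 := FC.base Pool.Agent.PolyTime.FP.p1

protected theorem FC.p2 : FC C p2 := FC.base Pool.Agent.PolyTime.FP.p2

protected theorem FC.comp {g f : List Bool → List Bool} (hg : FC C g) (hf : FC C f) :
    FC C (fun x => g (f x)) := C.comp hg hf

protected theorem FC.pair {f g : List Bool → List Bool} (hf : FC C f) (hg : FC C g) :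
    FC C (fun x => pr (f x) (g x)) := C.pair hf hg

protected theorem FC.cases {c f g h : List Bool → List Bool} (hc : FC C c) (hf : FC C f) (hg : FC C g)
    (hh : FC C h) : FC C (fun x => match c x with
      | [] => f x
      | false :: _ => g x
      | true :: _ => h x) := C.cases hc hf hg hh

protected theorem FC.iter {f g h : List Bool → List Bool} (hf : FC C f) (hg : FC C g) (hh : FC C h)
    (p : Polynomial ℕ)
    (hp : ∀ x i, i ≤ (g x).length → (f^[i] (h x)).length ≤ p.eval x.length) :
    FC C (fun x => f^[(g x).length] (h x)) := C.iter hf hg hh p hp

protected theorem FC.length_le {f : List Bool → List Bool} (hf : FC C f) :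
    ∃ p : Polynomial ℕ, ∀ x, (f x).length ≤ p.eval x.length := C.length_le hf

/-- computability of a function between encoded types, in the class `C` -/
@[fun_prop]
def PT (C : PCl) {α β : Type} [PEnc α] [PEnc β] (f : α → β) : Prop :=
  ∃ F : List Bool → List Bool, FC C F ∧ ∀ a, F (enc a) = enc (f a)

theorem PT.of_polyTime {α β : Type} [PEnc α] [PEnc β] {f : α → β}
    (h : Pool.Agent.PolyTime.PolyTime f) : PT C f := by
  obtain ⟨F, hF, hF'⟩ := h
  exact ⟨F, FC.base hF, hF'⟩

/-- ordinary polynomial time -/
def poly : PCl where
  mem := Pool.Agent.PolyTime.FP
  base := fun h => h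
  comp := fun hg hf => hg.comp hf
  pair := fun hf hg => hf.pair hg
  cases := fun hc hf hg hh => hc.cases hf hg hh
  iter := fun hf hg hh p hp => hf.iter hg hh p hp
  length_le := fun hf => hf.length_le

theorem PT_poly_iff {α β : Type} [PEnc α] [PEnc β] {f : α → β} :
    PT poly f ↔ Pool.Agent.PolyTime.PolyTime f := Iff.rfl

end Pool.Agent.RelPoly
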