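import Pool.Agent.RelPoly.Lists

set_option linter.dupNamespace false
set_option linter.unusedSectionVars false

namespace Pool.Agent.RelPoly

open Pool.Agent.PolyTime hiding FP PolyTime

variable {C : PCl}

section

variable {α β γ δ σ : Type} [PEnc α] [PEnc β] [PEnc γ] [PEnc δ] [PEnc σ]

@[fun_prop]
protected theorem PT.bodd {n : α → ℕ} (hn : PT C n) : PT C (fun a => Nat.bodd (n a)) := by
  obtain ⟨N, hN, hN'⟩ := hn
  refine ⟨_, FC.cases hN (FC.const [false]) (FC.const [false]) (FC.const [true]), fun a => ?_⟩
  beta_reduce
  rw [hN', enc_bool, Nat.bodd_eq_bits_head, enc_nat]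
  rcases Nat.bits (n a) with _ | ⟨_ | _, _⟩ <;> rfl

@[fun_prop]
protected theorem PT.div2 {n : α → ℕ} (hn : PT C n) : PT C (fun a => Nat.div2 (n a)) := by
  obtain ⟨N, hN, hN'⟩ := hn
  refine ⟨_, FC.tail' hN, fun a => ?_⟩
  beta_reduce
  rw [hN', enc_nat, enc_nat, Nat.div2_bits_eq_tail]

@[fun_prop]
protected theorem PT.bit {b : α → Bool} {n : α → ℕ} (hb : PT C b) (hn : PT C n) :
    PT C (fun a => Nat.bit (b a) (n a)) := by
  have h2 : PT C (fun a => Nat.bit true (n a)) := by
    obtain ⟨N, hN, hN'⟩ := hn
    refine ⟨_, FC.cons' true hN, fun a => ?_⟩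
    beta_reduce
    rw [hN', enc_nat, enc_nat, Nat.bits_append_bit _ _ (fun _ => rfl)]
  have h1 : PT C (fun a => Nat.bit false (n a)) := by
    obtain ⟨N, hN, hN'⟩ := hn
    refine ⟨_, FC.ite_nil hN FC.nil (FC.cons' false hN), fun a => ?_⟩
    beta_reduce
    rw [hN', enc_nat, enc_nat]
    by_cases h : n a = 0
    · simp [h]
    · rw [Nat.bits_append_bit _ _ (fun h' => absurd h' h), if_neg]
      intro h3
      apply h
      have : Nat.bits (n a) = Nat.bits 0 := by rw [h3, Nat.zero_bits]
      exact bits_injective this
  exact (PT.cond hb h2 h1).congr (fun a => by cases b a <;> rfl)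

@[fun_prop]
theorem pt_valMSB {l : α → List Bool} (hl : PT C l) :
    PT C (fun a => valMSB (l a)) := by
  refine PT.foldl (s := fun _ => 0) (h := fun _ n b => Nat.bit b n) hl
    (PT.const 0) (by fun_prop) (B := fun a => size (l a)) hl.pbd ?_
  intro a i
  rw [size_nat_le]
  have h1 := valMSB_lt ((l a).take i)
  refine h1.trans_le (Nat.pow_le_pow_right (by norm_num) ?_)
  exact (length_le_size _).trans (size_sublist (List.take_sublist _ _))

theorem pt_addStep : PT C addStep := by
  unfold addStep majB
  fun_prop

@[fun_prop]
protected theorem PT.add {f g : α → ℕ} (hf : PT C f) (hg : PT C g) :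
    PT C (fun a => f a + g a) := by
  have h1 : PT C (fun a => addStep^[size (f a, g a)] (f a, g a, false, [])) := by
    refine PT.iterate_size (c := fun a => (f a, g a))
      (b := fun a => 2 * size (f a) + 1 + (2 * size (g a) + 1 + (2 * 1 + 1 +
        3 * size (f a, g a)))) pt_addStep (by fun_prop) (by fun_prop) ?_ ?_
    · exact (((PBd.const 2).mul hf.pbd).add (PBd.const 1)).add
        ((((PBd.const 2).mul hg.pbd).add (PBd.const 1)).add ((PBd.const 3).add
        ((PBd.const 3).mul (hf.prodMk hg).pbd)))
    · intro a i hi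
      obtain ⟨x', y', c', o', h1, h2, h3, h4, -, -⟩ := addStep_iter i (f a) (g a) false []
      rw [h1, size_pair, size_pair, size_pair, size_list_bool, h2, size_bool]
      have h5 := size_nat_mono h3
      have h6 := size_nat_mono h4
      simp only [List.length_nil]
      omega
  refine (pt_valMSB h1.snd.snd.snd).congr (fun a => ?_)
  obtain ⟨x', y', c', o', h1, h2, h3, h4, h5, h6⟩ :=
    addStep_iter (size (f a, g a)) (f a) (g a) false []
  rw [h1]
  have h7 : (f a + g a + false.toNat) / 2 ^ size (f a, g a) = 0 := by
    apply Nat.div_eq_of_lt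
    rw [size_pair]
    have h8 := lt_two_pow_size (f a)
    have h9 := lt_two_pow_size (g a)
    have h10 : 2 ^ size (f a) ≤ 2 ^ (2 * size (f a) + size (g a)) :=
      Nat.pow_le_pow_right (by norm_num) (by omega)
    have h11 : 2 ^ size (g a) ≤ 2 ^ (2 * size (f a) + size (g a)) :=
      Nat.pow_le_pow_right (by norm_num) (by omega)
    have h12 : 2 ^ (2 * size (f a) + 1 + size (g a)) = 2 ^ (2 * size (f a) + size (g a)) * 2 := by
      rw [← pow_succ]; congr 1; omega
    rw [h12]
    simp only [Bool.toNat_false]
    omega
  rw [h5, h7] at h6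
  simpa [valMSB] using h6

@[fun_prop]
protected theorem PT.succ {f : α → ℕ} (hf : PT C f) : PT C (fun a => Nat.succ (f a)) :=
  hf.add (PT.const 1)

theorem pt_ltStep : PT C ltStep := by
  unfold ltStep
  fun_prop

@[fun_prop]
protected theorem PT.decide_lt {f g : α → ℕ} (hf : PT C f) (hg : PT C g) :
    PT C (fun a => decide (f a < g a)) := by
  have h1 : PT C (fun a => ltStep^[size (f a, g a)] (f a, g a, false)) := by
    refine PT.iterate_size (c := fun a => (f a, g a))
      (b := fun a => 2 * size (f a) + 1 + (2 * size (g a) + 1 + 1))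
      pt_ltStep (by fun_prop) (by fun_prop) ?_ ?_
    · exact (((PBd.const 2).mul hf.pbd).add (PBd.const 1)).add
        ((((PBd.const 2).mul hg.pbd).add (PBd.const 1)).add (PBd.const 1))
    · intro a i _
      obtain ⟨x', y', r', h1, h2, h3, -⟩ := ltStep_iter i (f a) (g a) false
      have h4 : x' ≤ f a := h2 ▸ Nat.div_le_self _ _
      have h5 : y' ≤ g a := h3 ▸ Nat.div_le_self _ _
      rw [h1, size_pair, size_pair, size_bool]
      have h6 := size_nat_mono h4
      have h7 := size_nat_mono h5
      omega
  refine h1.snd.snd.congr (fun a => ?_)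
  obtain ⟨x', y', r', h1, h2, h3, h4⟩ := ltStep_iter (size (f a, g a)) (f a) (g a) false
  rw [h1]
  have h5 : x' = 0 := by
    rw [h2]
    refine Nat.div_eq_of_lt ((lt_two_pow_size _).trans_le (Nat.pow_le_pow_right (by norm_num) ?_))
    rw [size_pair]; omega
  have h6 : y' = 0 := by
    rw [h3]
    refine Nat.div_eq_of_lt ((lt_two_pow_size _).trans_le (Nat.pow_le_pow_right (by norm_num) ?_))
    rw [size_pair]; omega
  subst h5 h6
  simp only [Bool.false_eq_true, and_false, or_false, lt_self_iff_false, true_and,
    false_or] at h4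
  cases r' <;> simp_all

@[fun_prop]
protected theorem PT.decide_le {f g : α → ℕ} (hf : PT C f) (hg : PT C g) :
    PT C (fun a => decide (f a ≤ g a)) :=
  (PT.decide_lt hg hf).not.congr (fun a => by
    by_cases h : g a < f a
    · simp [h]
    · simp [h, Nat.le_of_not_lt h])

@[fun_prop]
protected theorem PT.max {f g : α → ℕ} (hf : PT C f) (hg : PT C g) :
    PT C (fun a => Max.max (f a) (g a)) :=
  (PT.ite (p := fun a => f a ≤ g a) (by fun_prop) hg hf).congr (fun a => by
    rw [max_def])

@[fun_prop]
protected theorem PT.min {f g : α → ℕ} (hf : PT C f) (hg : PT C g) :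
    PT C (fun a => Min.min (f a) (g a)) :=
  (PT.ite (p := fun a => f a ≤ g a) (by fun_prop) hf hg).congr (fun a => by
    rw [min_def])

theorem pt_subStep : PT C subStep := by
  unfold subStep brw
  fun_prop

@[fun_prop]
protected theorem PT.sub {f g : α → ℕ} (hf : PT C f) (hg : PT C g) :
    PT C (fun a => f a - g a) := by
  have h1 : PT C (fun a => subStep^[size (f a, g a)] (f a, g a, false, [])) := by
    refine PT.iterate_size (c := fun a => (f a, g a))
      (b := fun a => 2 * size (f a) + 1 + (2 * size (g a) + 1 + (2 * 1 + 1 +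
        3 * size (f a, g a)))) pt_subStep (by fun_prop) (by fun_prop) ?_ ?_
    · exact (((PBd.const 2).mul hf.pbd).add (PBd.const 1)).add
        ((((PBd.const 2).mul hg.pbd).add (PBd.const 1)).add ((PBd.const 3).add
        ((PBd.const 3).mul (hf.prodMk hg).pbd)))
    · intro a i hi
      obtain ⟨x', y', c', o', h1, h2, h3, h4, -⟩ := subStep_iter i (f a) (g a) false []
      have h3' : x' ≤ f a := h3 ▸ Nat.div_le_self _ _
      have h4' : y' ≤ g a := h4 ▸ Nat.div_le_self _ _
      rw [h1, size_pair, size_pair, size_pair, size_list_bool, h2, size_bool]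
      have h5 := size_nat_mono h3'
      have h6 := size_nat_mono h4'
      simp only [List.length_nil]
      omega
  refine (PT.ite (p := fun a => f a ≤ g a) (by fun_prop) (PT.const 0)
    (pt_valMSB h1.snd.snd.snd)).congr (fun a => ?_)
  by_cases hfg : f a ≤ g a
  · rw [if_pos hfg, Nat.sub_eq_zero_of_le hfg]
  rw [if_neg hfg]
  obtain ⟨x', y', c', o', h1, h2, h3, h4, h6⟩ :=
    subStep_iter (size (f a, g a)) (f a) (g a) false []
  rw [h1]
  have h7 : x' = 0 := by
    rw [h3]
    refine Nat.div_eq_of_lt ((lt_two_pow_size _).trans_le (Nat.pow_le_pow_right (by norm_num) ?_))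
    rw [size_pair]; omega
  have h8 : y' = 0 := by
    rw [h4]
    refine Nat.div_eq_of_lt ((lt_two_pow_size _).trans_le (Nat.pow_le_pow_right (by norm_num) ?_))
    rw [size_pair]; omega
  subst h7 h8
  have h9 := valMSB_lt o'
  have h10 : valMSB [] = 0 := rfl
  simp only [h10, List.length_nil, pow_zero, mul_one, Bool.toNat_false, Nat.cast_zero,
    sub_zero, add_zero] at h6
  cases c' with
  | false =>
    simp only [Bool.toNat_false, Nat.cast_zero, sub_zero, zero_mul, zero_add] at h6
    change valMSB o' = f a - g a
    omega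
  | true =>
    exfalso
    simp only [Bool.toNat_true, Nat.cast_one, zero_sub] at h6
    have h11 : ((valMSB o' : ℕ) : ℤ) < 2 ^ o'.length := by exact_mod_cast h9
    have h12 : (f a : ℤ) - g a > 0 := by omega
    linarith

@[fun_prop]
protected theorem PT.pred {f : α → ℕ} (hf : PT C f) : PT C (fun a => Nat.pred (f a)) :=
  hf.sub (PT.const 1)

theorem pt_bitsStep : PT C bitsStep := by
  unfold bitsStep
  fun_prop

@[fun_prop]
protected theorem PT.bits {f : α → ℕ} (hf : PT C f) : PT C (fun a => Nat.bits (f a)) := by
  have h1 : PT C (fun a => bitsStep^[size (f a)] (f a, [])) := by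
    refine PT.iterate_size (c := fun a => f a)
      (b := fun a => 2 * size (f a) + 1 + 3 * size (f a)) pt_bitsStep (by fun_prop) hf ?_ ?_
    · exact (((PBd.const 2).mul hf.pbd).add (PBd.const 1)).add ((PBd.const 3).mul hf.pbd)
    · intro a i hi
      rw [bitsStep_iter, size_pair, size_list_bool]
      have h2 := size_nat_mono (Nat.div_le_self (f a) (2 ^ i))
      have h3 : (List.take i (f a).bits).length ≤ size (f a) := by
        rw [List.length_take]; omega
      simp only [List.append_nil, List.length_reverse]
      omega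
  refine h1.snd.reverse.congr (fun a => ?_)
  rw [bitsStep_iter]
  simp only [List.append_nil, List.reverse_reverse]
  exact List.take_of_length_le (by rw [size, enc_nat])

@[fun_prop]
protected theorem PT.mul {f g : α → ℕ} (hf : PT C f) (hg : PT C g) :
    PT C (fun a => f a * g a) := by
  have h1 : PT C (fun a => ((g a).bits.reverse).foldl
      (fun acc b => Nat.bit false acc + (bif b then f a else 0)) 0) := by
    refine PT.foldl (h := fun a acc b => Nat.bit false acc + (bif b then f a else 0))
      (B := fun a => size (f a) + 3 * size (g a)) (by fun_prop) (PT.const 0)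
      (by fun_prop) (hf.pbd.add ((PBd.const 3).mul hg.pbd)) ?_
    intro a i
    rw [mul_foldl]
    refine (size_nat_mul _ _).trans (Nat.add_le_add_left ?_ _)
    rw [size_nat_le]
    refine (valMSB_lt _).trans_le (Nat.pow_le_pow_right (by norm_num) ?_)
    rw [List.length_take, List.length_reverse]
    have : (g a).bits.length = size (g a) := rfl
    omega
  refine h1.congr (fun a => ?_)
  rw [mul_foldl, valMSB_reverse_bits]

protected theorem PT.divMod {f g : α → ℕ} (hf : PT C f) (hg : PT C g) :
    PT C (fun a => ((f a) / (g a), (f a) % (g a))) := by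
  have hb : ∀ a i, 0 < g a → size ((((f a).bits.reverse).take i).foldl (divStep (g a)) (0, 0)) ≤
      2 * size (f a) + 1 + size (f a) := by
    intro a i hg
    rw [div_foldl _ hg, size_pair]
    have h1 : size (valMSB (List.take i (f a).bits.reverse)) ≤ size (f a) := by
      rw [size_nat_le]
      refine (valMSB_lt _).trans_le (Nat.pow_le_pow_right (by norm_num) ?_)
      rw [List.length_take, List.length_reverse]
      have : (f a).bits.length = size (f a) := rfl
      omega
    have h2 := size_nat_mono (Nat.div_le_self (valMSB (List.take i (f a).bits.reverse)) (g a))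
    have h3 := size_nat_mono (Nat.mod_le (valMSB (List.take i (f a).bits.reverse)) (g a))
    omega
  have h1 : PT C (fun a => ((f a).bits.reverse).foldl
      (divStep (g a + (bif decide (g a = 0) then 1 else 0))) (0, 0)) := by
    refine PT.foldl (h := fun a => divStep (g a + (bif decide (g a = 0) then 1 else 0)))
      (B := fun a => 2 * size (f a) + 1 + size (f a)) (by fun_prop) (PT.const _)
      ?_ ((((PBd.const 2).mul hf.pbd).add (PBd.const 1)).add hf.pbd) ?_
    · unfold divStep
      fun_prop
    · intro a i
      rw [div_foldl]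
      · rw [size_pair]
        have h1 : size (valMSB (List.take i (f a).bits.reverse)) ≤ size (f a) := by
          rw [size_nat_le]
          refine (valMSB_lt _).trans_le (Nat.pow_le_pow_right (by norm_num) ?_)
          rw [List.length_take, List.length_reverse]
          have : (f a).bits.length = size (f a) := rfl
          omega
        have h2 := size_nat_mono (Nat.div_le_self (valMSB (List.take i (f a).bits.reverse))
          (g a + (bif decide (g a = 0) then 1 else 0)))
        have h3 := size_nat_mono (Nat.mod_le (valMSB (List.take i (f a).bits.reverse))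
          (g a + (bif decide (g a = 0) then 1 else 0)))
        omega
      · by_cases h : g a = 0 <;> simp [h]
        omega
  refine (PT.cond (c := fun a => decide (g a = 0)) (by fun_prop)
    (PT.prodMk (PT.const 0) hf) h1).congr (fun a => ?_)
  by_cases h : g a = 0
  · simp [h]
  · rw [decide_eq_false h, cond_false, cond_false, div_foldl _ (by omega),
      valMSB_reverse_bits, add_zero]

@[fun_prop]
protected theorem PT.div {f g : α → ℕ} (hf : PT C f) (hg : PT C g) :
    PT C (fun a => (f a) / (g a)) := (PT.divMod hf hg).fst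

@[fun_prop]
protected theorem PT.mod {f g : α → ℕ} (hf : PT C f) (hg : PT C g) :
    PT C (fun a => (f a) % (g a)) := (PT.divMod hf hg).snd

end



end Pool.Agent.RelPoly
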