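import Pool.Agent.RelPoly.OProg
import Pool.Agent.RelPoly.Core

/-!
Closure properties of `OFP Ω`: base functions, case distinction, iteration, oracle calls.
-/

namespace Pool.Agent.RelPoly

open Function Pool.Agent.PolyTime Pool.Agent.PolyTime.Prog

set_option linter.unusedSectionVars false

namespace OProg

variable {Ω : Set (List Bool)}

/-- ordinary programs are oracle programs -/
def ofProg {K : Type} : Pool.Agent.PolyTime.Prog K → OProg K
  | .skip => skip
  | .push k b => push k b
  | .pop k => pop k
  | .seq p q => seq (ofProg p) (ofProg q)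
  | .ite k p q r => ite k (ofProg p) (ofProg q) (ofProg r)
  | .loop k q r => loop k (ofProg q) (ofProg r)

theorem OExec.ofProg {K : Type} [DecidableEq K] {p : Pool.Agent.PolyTime.Prog K} {S S' : St K} {t : ℕ}
    (h : Pool.Agent.PolyTime.Prog.Exec p S S' t) : OExec Ω (ofProg p) S S' t := by
  induction h with
  | skip S => exact OExec.skip S
  | push k b S => exact OExec.push k b S
  | pop k S => exact OExec.pop k S
  | seq _ _ ih1 ih2 => exact OExec.seq ih1 ih2
  | ite_nil hk _ ih => exact OExec.ite_nil hk ih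
  | ite_false hk _ ih => exact OExec.ite_false hk ih
  | ite_true hk _ ih => exact OExec.ite_true hk ih
  | loop_nil hk => exact OExec.loop_nil hk
  | loop_false hk _ _ ih1 ih2 => exact OExec.loop_false hk ih1 ih2
  | loop_true hk _ _ ih1 ih2 => exact OExec.loop_true hk ih1 ih2

theorem OFP.base {f : List Bool → List Bool} (h : Pool.Agent.PolyTime.FP f) : OFP Ω f := by
  obtain ⟨K, i1, i2, k₀, k₁, p, P, h⟩ := Pool.Agent.PolyTime.FP_iff_ProgFP.1 h
  refine ⟨K, i1, i2, k₀, k₁, ofProg p, P, fun x => ?_⟩
  obtain ⟨t, ht, he⟩ := h x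
  exact ⟨t, ht, OExec.ofProg he⟩

theorem OFP.id : OFP Ω (fun x => x) := OFP.base Pool.Agent.PolyTime.FP.id
theorem OFP.cons (b : Bool) : OFP Ω (fun x => b :: x) := OFP.base (Pool.Agent.PolyTime.FP.cons b)
theorem OFP.p2 : OFP Ω PolyTime.p2 := OFP.base Pool.Agent.PolyTime.FP.p2

/-- the oracle, as a function -/
theorem OFP.oracle : OFP Ω (fun x => [ans Ω x]) :=
  ⟨Unit, inferInstance, inferInstance, (), (), ask (), 1, fun x => ⟨1, by simp, by
    have := OExec.ask (Ω := Ω) () (single () x)
    rw [single_self, update_single] at this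
    exact this⟩⟩

theorem OFP.bw {f g : List Bool → List Bool} (hf : OFP Ω f) (hg : OFP Ω g) :
    OFP Ω (bw f g) := by
  obtain ⟨Kf, _, _, f₀, f₁, pf, Pf, hf⟩ := hf
  obtain ⟨Kg, _, _, g₀, g₁, pg, Pg, hg⟩ := hg
  refine OComp.progFP (K := K2 Kf Kg)
    (p := ite ra skip
      (seq (pop ra) (seq (moveRev ra rt) (seq (moveRev rt (rf f₀)) (seq (pf.map rf)
        (seq (moveRev (rf f₁) rt) (moveRev rt ra))))))
      (seq (pop ra) (seq (moveRev ra rt) (seq (moveRev rt (rg g₀)) (seq (pg.map rg)
        (seq (moveRev (rg g₁) rt) (moveRev rt ra)))))))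
    (k₀ := ra) (k₁ := ra)
    (P := 6 + 4 * Polynomial.X + Pf + Pg + 4 * (Pf + Polynomial.X) + 4 * (Pg + Polynomial.X))
    (fun x => ?_)
  match x with
  | [] =>
    refine ⟨1 + 1, ?_, OExec.ite_nil (by simp) ((OExec.skip _).cast rfl (by simp [PolyTime.Prog.bw]) rfl)⟩
    simp only [Polynomial.eval_add, Polynomial.eval_mul, Polynomial.eval_X, Polynomial.eval_ofNat]
    omega
  | false :: w =>
    have hlf := OComp.length_le (p := pf) (k₀ := f₀) (k₁ := f₁) hf w
    obtain ⟨tf, htf, hef⟩ := hf w
    have e0 : OExec Ω (pop ra) (st2 (bot Kf) (bot Kg) (false :: w) []) (st2 (bot _) (bot _) w []) 1 :=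
      pp (by simp)
    have e1 : OExec Ω (moveRev ra rt) (st2 (bot Kf) (bot Kg) w []) (st2 (bot _) (bot _) [] w.reverse)
        (2 * w.length + 1) := mv (by simp) (by simp) (by simp)
    have e2 : OExec Ω (moveRev rt (rf f₀)) (st2 (bot Kf) (bot Kg) [] w.reverse)
        (st2 (single f₀ w) (bot _) [] []) (2 * w.reverse.length + 1) :=
      mv (by simp) (by simp) (by simp)
    have e3 := exec_f hef (bot Kg) [] []
    have e4 : OExec Ω (moveRev (rf f₁) rt) (st2 (single f₁ (f w)) (bot Kg) [] [])
        (st2 (bot _) (bot _) [] (f w).reverse) (2 * (f w).length + 1) :=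
      mv (by simp) (by simp) (by simp)
    have e5 : OExec Ω (moveRev rt ra) (st2 (bot Kf) (bot Kg) [] (f w).reverse)
        (st2 (bot _) (bot _) (f w) []) (2 * (f w).reverse.length + 1) :=
      mv (by simp) (by simp) (by simp)
    have e := OExec.seq e0 (OExec.seq e1 (OExec.seq e2 (OExec.seq e3 (OExec.seq e4 e5))))
    refine ⟨_, ?_, (OExec.ite_false (k := ra) (w := w) (by simp) e).cast ?_ ?_ rfl⟩
    · have h1 : Pf.eval w.length ≤ Pf.eval (w.length + 1) := poly_mono _ (by omega)
      have h2 : Pg.eval w.length ≤ Pg.eval (w.length + 1) := poly_mono _ (by omega)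
      simp only [Polynomial.eval_add, Polynomial.eval_mul, Polynomial.eval_X,
        Polynomial.eval_ofNat, List.length_reverse, List.length_cons]
      omega
    · rw [single_ra]
    · rw [single_ra]; rfl
  | true :: w =>
    have hlf := OComp.length_le (p := pg) (k₀ := g₀) (k₁ := g₁) hg w
    obtain ⟨tf, htf, hef⟩ := hg w
    have e0 : OExec Ω (pop ra) (st2 (bot Kf) (bot Kg) (true :: w) []) (st2 (bot _) (bot _) w []) 1 :=
      pp (by simp)
    have e1 : OExec Ω (moveRev ra rt) (st2 (bot Kf) (bot Kg) w []) (st2 (bot _) (bot _) [] w.reverse)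
        (2 * w.length + 1) := mv (by simp) (by simp) (by simp)
    have e2 : OExec Ω (moveRev rt (rg g₀)) (st2 (bot Kf) (bot Kg) [] w.reverse)
        (st2 (bot _) (single g₀ w) [] []) (2 * w.reverse.length + 1) :=
      mv (by simp) (by simp) (by simp)
    have e3 := exec_g hef (bot Kf) [] []
    have e4 : OExec Ω (moveRev (rg g₁) rt) (st2 (bot Kf) (single g₁ (g w)) [] [])
        (st2 (bot _) (bot _) [] (g w).reverse) (2 * (g w).length + 1) :=
      mv (by simp) (by simp) (by simp)
    have e5 : OExec Ω (moveRev rt ra) (st2 (bot Kf) (bot Kg) [] (g w).reverse)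
        (st2 (bot _) (bot _) (g w) []) (2 * (g w).reverse.length + 1) :=
      mv (by simp) (by simp) (by simp)
    have e := OExec.seq e0 (OExec.seq e1 (OExec.seq e2 (OExec.seq e3 (OExec.seq e4 e5))))
    refine ⟨_, ?_, (OExec.ite_true (k := ra) (w := w) (by simp) e).cast ?_ ?_ rfl⟩
    · have h1 : Pf.eval w.length ≤ Pf.eval (w.length + 1) := poly_mono _ (by omega)
      have h2 : Pg.eval w.length ≤ Pg.eval (w.length + 1) := poly_mono _ (by omega)
      simp only [Polynomial.eval_add, Polynomial.eval_mul, Polynomial.eval_X,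
        Polynomial.eval_ofNat, List.length_reverse, List.length_cons]
      omega
    · rw [single_ra]
    · rw [single_ra]; rfl

theorem OFP.cases {c f g h : List Bool → List Bool} (hc : OFP Ω c) (hf : OFP Ω f)
    (hg : OFP Ω g) (hh : OFP Ω h) : OFP Ω (fun x => match c x with
      | [] => f x
      | false :: _ => g x
      | true :: _ => h x) := by
  have hE := OFP.bw (Ω := Ω) (OFP.cons false) ((OFP.cons true).comp
    (OFP.bw ((OFP.cons false).comp OFP.p2) ((OFP.cons true).comp OFP.p2)))
  have hB := OFP.bw hf (OFP.bw hg hh)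
  have h3 := (hB.comp hE).comp (hc.pair OFP.id)
  have e : (fun x => match c x with
      | [] => f x
      | false :: _ => g x
      | true :: _ => h x) = (fun x => PolyTime.Prog.bw f (PolyTime.Prog.bw g h)
        (PolyTime.Prog.bw (fun x => false :: x) (fun x => true :: (PolyTime.Prog.bw
          (fun x => false :: PolyTime.p2 x) (fun x => true :: PolyTime.p2 x)) x)
            (pr (c x) x))) := by
    funext x
    rcases hcx : c x with _ | ⟨b, u⟩
    · simp [pr, PolyTime.Prog.bw]
    · have e : pr (b :: u) x = true :: b :: pr u x := by simp [pr]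
      rw [e]
      cases b <;> simp [PolyTime.Prog.bw]
  rw [e]
  exact h3

/-- One round of the iteration. -/
def iterBody {K : Type} (pf : OProg K) (f₀ f₁ : K) : OProg (K2 K Unit) :=
  seq (pf.map rf) (seq (moveRev (rf f₁) rt) (moveRev rt (rf f₀)))

theorem exec_iterBody {K : Type} [DecidableEq K] {pf : OProg K} {f₀ f₁ : K}
    {f : List Bool → List Bool} {x : List Bool} {t : ℕ} (c : List Bool)
    (h : OExec Ω pf (single f₀ x) (single f₁ (f x)) t) :
    OExec Ω (iterBody pf f₀ f₁) (st2 (single f₀ x) (one c) [] [])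
      (st2 (single f₀ (f x)) (one c) [] []) (t + ((2 * (f x).length + 1) +
        (2 * (f x).reverse.length + 1))) := by
  have e1 := exec_f h (one c) [] []
  have e2 : OExec Ω (moveRev (rf f₁) rt) (st2 (single f₁ (f x)) (one c) [] [])
      (st2 (bot _) (one c) [] (f x).reverse) (2 * (f x).length + 1) :=
    mv (by simp) (by simp) (by simp)
  have e3 : OExec Ω (moveRev rt (rf f₀)) (st2 (bot K) (one c) [] (f x).reverse)
      (st2 (single f₀ (f x)) (one c) [] []) (2 * (f x).reverse.length + 1) :=
    mv (by simp) (by simp) (by simp)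
  exact OExec.seq e1 (OExec.seq e2 e3)

theorem exec_iterLoop {K : Type} [DecidableEq K] [Fintype K] {pf : OProg K} {f₀ f₁ : K}
    {f : List Bool → List Bool} {P : Polynomial ℕ} (h : OComp Ω pf f₀ f₁ f P) (Bd : ℕ) :
    ∀ (c y : List Bool), (∀ i, i ≤ c.length → (f^[i] y).length ≤ Bd) →
    ∃ t, t ≤ c.length * (P.eval Bd + 4 * Bd + 3) + 1 ∧
      OExec Ω (loop (rg ()) (iterBody pf f₀ f₁) (iterBody pf f₀ f₁))
        (st2 (single f₀ y) (one c) [] [])
        (st2 (single f₀ (f^[c.length] y)) (one []) [] []) t := by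
  intro c
  induction c with
  | nil =>
    intro y _
    exact ⟨1, by omega, OExec.loop_nil (by simp [one])⟩
  | cons b c ih =>
    intro y hy
    obtain ⟨t, ht, h1⟩ := h y
    have h2 := exec_iterBody (f := f) c h1
    obtain ⟨t', ht', h3⟩ := ih (f y) (fun i hi => by
      have := hy (i + 1) (by simp only [List.length_cons]; omega)
      rwa [iterate_succ_apply] at this)
    have hb0 : y.length ≤ Bd := hy 0 (by omega)
    have hb1 : (f y).length ≤ Bd := hy 1 (by simp only [List.length_cons]; omega)
    have hP : P.eval y.length ≤ P.eval Bd := poly_mono _ hb0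
    have hS : update (st2 (single f₀ y) (one (b :: c)) [] []) (rg ()) c =
        st2 (single f₀ y) (one c) [] [] := by
      rw [up2_rg, update_one]
    refine ⟨(t + ((2 * (f y).length + 1) + (2 * (f y).reverse.length + 1))) + t' + 1, ?_, ?_⟩
    · have e : (b :: c).length * (P.eval Bd + 4 * Bd + 3) =
          c.length * (P.eval Bd + 4 * Bd + 3) + (P.eval Bd + 4 * Bd + 3) := by
        simp only [List.length_cons]; ring
      rw [e, List.length_reverse]
      omega
    · have e : f^[(b :: c).length] y = f^[c.length] (f y) := by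
        rw [List.length_cons, iterate_succ_apply]
      rw [e]
      cases b with
      | false =>
        exact OExec.loop_false (k := rg ()) (w := c) (by simp [one]) (hS.symm ▸ h2) h3
      | true =>
        exact OExec.loop_true (k := rg ()) (w := c) (by simp [one]) (hS.symm ▸ h2) h3

theorem exec_iterInit {K : Type} [DecidableEq K] (v : List Bool) : ∀ (u c : List Bool),
    ∃ t c', t ≤ 3 * u.length + 2 * v.length + 3 ∧ c'.length = u.length + c.length ∧
      OExec Ω (loop ra (moveRev ra rt) (seq (pop ra) (push (rg ()) true)) : OProg (K2 K Unit))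
        (st2 (bot K) (one c) (pr u v) []) (st2 (bot K) (one c') [] v.reverse) t := by
  intro u
  induction u with
  | nil =>
    intro c
    have e : pr [] v = false :: v := by simp [pr]
    have h1 : OExec Ω (moveRev ra rt) (update (st2 (bot K) (one c) (pr [] v) []) ra v)
        (st2 (bot K) (one c) [] v.reverse) (2 * v.length + 1) :=
      mv (by simp) (by simp) (by simp)
    have h2 : OExec Ω (loop ra (moveRev ra rt) (seq (pop ra) (push (rg ()) true)) :
        OProg (K2 K Unit)) (st2 (bot K) (one c) [] v.reverse)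
        (st2 (bot K) (one c) [] v.reverse) 1 := OExec.loop_nil (by simp)
    exact ⟨_, c, by simp, by simp, OExec.loop_false (k := ra) (w := v) (by simp [e]) h1 h2⟩
  | cons b u ih =>
    intro c
    have e : pr (b :: u) v = true :: b :: pr u v := by simp [pr]
    obtain ⟨t, c', ht, hc', h2⟩ := ih (true :: c)
    have h1 : OExec Ω (seq (pop ra) (push (rg ()) true))
        (update (st2 (bot K) (one c) (pr (b :: u) v) []) ra (b :: pr u v))
        (st2 (bot K) (one (true :: c)) (pr u v) []) (1 + 1) := by
      rw [up2_ra]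
      refine OExec.seq (S' := st2 (bot K) (one c) (pr u v) []) (pp (by simp)) (psh ?_)
      simp [one_apply, update_one]
    refine ⟨_, c', ?_, ?_, OExec.loop_true (k := ra) (w := b :: pr u v) (by simp [e]) h1 h2⟩
    · simp only [List.length_cons]; omega
    · simp only [List.length_cons] at *; omega

theorem OFP.iter {f g h : List Bool → List Bool} (hf : OFP Ω f) (hg : OFP Ω g)
    (hh : OFP Ω h) (p : Polynomial ℕ)
    (hp : ∀ x i, i ≤ (g x).length → (f^[i] (h x)).length ≤ p.eval x.length) :
    OFP Ω (fun x => f^[(g x).length] (h x)) := by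
  obtain ⟨Q, hQ⟩ := hg.length_le
  obtain ⟨Kf, _, _, f₀, f₁, pf, Pf, hf⟩ := hf
  refine (hg.pair hh).comp_on (Kg := K2 Kf Unit) ra ra
    (seq (loop ra (moveRev ra rt) (seq (pop ra) (push (rg ()) true)))
      (seq (moveRev rt (rf f₀)) (seq (loop (rg ()) (iterBody pf f₀ f₁) (iterBody pf f₀ f₁))
        (seq (moveRev (rf f₀) rt) (moveRev rt ra)))))
    ((3 * Q + 2 * p + 3) + (2 * p + 1) + (Q * (Pf.comp p + 4 * p + 3) + 1) +
      (2 * p + 1) + (2 * p + 1)) (fun x => ?_)
  obtain ⟨t0, c', ht0, hc', e0⟩ := exec_iterInit (K := Kf) (h x) (g x) []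
  have hc0 : c'.length = (g x).length := by simpa using hc'
  obtain ⟨t1, ht1, e2⟩ := exec_iterLoop (pf := pf) (f₀ := f₀) (f₁ := f₁) (f := f) hf
    (p.eval x.length) c' (h x) (fun i hi => hp x i (by omega))
  rw [hc0] at e2 ht1
  have e1 : OExec Ω (moveRev rt (rf f₀)) (st2 (bot Kf) (one c') [] (h x).reverse)
      (st2 (single f₀ (h x)) (one c') [] []) (2 * (h x).reverse.length + 1) :=
    mv (by simp) (by simp) (by simp)
  have e3 : OExec Ω (moveRev (rf f₀) rt)
      (st2 (single f₀ (f^[(g x).length] (h x))) (one []) [] [])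
      (st2 (bot Kf) (one []) [] (f^[(g x).length] (h x)).reverse)
      (2 * (f^[(g x).length] (h x)).length + 1) := mv (by simp) (by simp) (by simp)
  have e4 : OExec Ω (moveRev rt ra)
      (st2 (bot Kf) (one []) [] (f^[(g x).length] (h x)).reverse)
      (st2 (bot Kf) (one []) (f^[(g x).length] (h x)) [])
      (2 * (f^[(g x).length] (h x)).reverse.length + 1) := mv (by simp) (by simp) (by simp)
  refine ⟨_, ?_, (OExec.seq e0 (OExec.seq e1 (OExec.seq e2 (OExec.seq e3 e4)))).cast ?_ ?_ rfl⟩
  · have h1 := hQ x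
    have h2 := hp x 0 (by omega)
    have h3 := hp x (g x).length le_rfl
    simp only [iterate_zero, _root_.id] at h2
    have h4 : (g x).length * (Pf.eval (p.eval x.length) + 4 * p.eval x.length + 3) ≤
        Q.eval x.length * (Pf.eval (p.eval x.length) + 4 * p.eval x.length + 3) :=
      Nat.mul_le_mul_right _ h1
    simp only [Polynomial.eval_add, Polynomial.eval_mul, Polynomial.eval_one,
      Polynomial.eval_comp, Polynomial.eval_ofNat, List.length_reverse]
    omega
  · rw [single_ra, bot_unit]
  · rw [single_ra, bot_unit]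

end OProg

open OProg in
/-- the class of functions computable in polynomial time relative to the oracle `Ω` -/
def orc (Ω : Set (List Bool)) : PCl where
  mem := OFP Ω
  base := fun h => OFP.base h
  comp := fun hg hf => hg.comp hf
  pair := fun hf hg => hf.pair hg
  cases := fun hc hf hg hh => hc.cases hf hg hh
  iter := fun hf hg hh p hp => hf.iter hg hh p hp
  length_le := fun hf => hf.length_le

theorem FC_oracle (Ω : Set (List Bool)) : FC (orc Ω) (fun x => [OProg.ans Ω x]) := OProg.OFP.oracle

end Pool.Agent.RelPoly
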