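import Pool.Agent.RelPoly.Core

/-!
# Polynomial time with an oracle

The structured stack language of `Pool.Agent.PolyTime.Prog`, with one more instruction: `ask k`
replaces the content `w` of register `k` by the single bit that says whether `w` is in the oracle `Ω`.
`OFP Ω f` says that `f : List Bool → List Bool` is computed by such a program in polynomial time.
-/

namespace Pool.Agent.RelPoly

open Function Pool.Agent.PolyTime Pool.Agent.PolyTime.Prog

set_option linter.unusedSectionVars false

/-- Oracle programs over registers `K`, each holding a stack of bits. -/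
inductive OProg (K : Type) : Type
  | skip : OProg K
  | push : K → Bool → OProg K
  | pop : K → OProg K
  | ask : K → OProg K
  | seq : OProg K → OProg K → OProg K
  | ite : K → OProg K → OProg K → OProg K → OProg K
  | loop : K → OProg K → OProg K → OProg K

namespace OProg

open Classical in
/-- the answer of the oracle -/
noncomputable def ans (Ω : Set (List Bool)) (w : List Bool) : Bool := decide (w ∈ Ω)

/-- Timed big-step semantics, relative to the oracle `Ω`. `ite k p q r` tests the head of register
`k` (empty / false / true) without removing it; `loop k q r` pops the head of register `k` as long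
as there is one, and runs `q` when it is `false`, `r` when it is `true`; `ask k` replaces the
content of register `k` by the answer of the oracle. -/
inductive OExec {K : Type} [DecidableEq K] (Ω : Set (List Bool)) : OProg K → St K → St K → ℕ → Prop
  | skip (S) : OExec Ω skip S S 1
  | push (k b S) : OExec Ω (push k b) S (update S k (b :: S k)) 1
  | pop (k S) : OExec Ω (pop k) S (update S k (S k).tail) 1
  | ask (k S) : OExec Ω (ask k) S (update S k [ans Ω (S k)]) 1
  | seq {p q S S' S'' t t'} : OExec Ω p S S' t → OExec Ω q S' S'' t' →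
      OExec Ω (seq p q) S S'' (t + t')
  | ite_nil {k p q r S S' t} : S k = [] → OExec Ω p S S' t → OExec Ω (ite k p q r) S S' (t + 1)
  | ite_false {k p q r S S' t w} : S k = false :: w → OExec Ω q S S' t →
      OExec Ω (ite k p q r) S S' (t + 1)
  | ite_true {k p q r S S' t w} : S k = true :: w → OExec Ω r S S' t →
      OExec Ω (ite k p q r) S S' (t + 1)
  | loop_nil {k q r S} : S k = [] → OExec Ω (loop k q r) S S 1
  | loop_false {k q r S S' S'' t t' w} : S k = false :: w → OExec Ω q (update S k w) S' t →
      OExec Ω (loop k q r) S' S'' t' → OExec Ω (loop k q r) S S'' (t + t' + 1)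
  | loop_true {k q r S S' S'' t t' w} : S k = true :: w → OExec Ω r (update S k w) S' t →
      OExec Ω (loop k q r) S' S'' t' → OExec Ω (loop k q r) S S'' (t + t' + 1)

/-- Polynomial-time computability relative to the oracle `Ω`. -/
def OFP (Ω : Set (List Bool)) (f : List Bool → List Bool) : Prop :=
  ∃ (K : Type) (_ : DecidableEq K) (_ : Fintype K) (k₀ k₁ : K) (p : OProg K) (P : Polynomial ℕ),
    ∀ x, ∃ t, t ≤ P.eval x.length ∧ OExec Ω p (single k₀ x) (single k₁ (f x)) t

variable {Ω : Set (List Bool)}

variable {K K' : Type} [DecidableEq K] [DecidableEq K']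

/-- Renaming of registers. -/
def map {K K' : Type} (i : K → K') : OProg K → OProg K'
  | skip => skip
  | push k b => push (i k) b
  | pop k => pop (i k)
  | ask k => ask (i k)
  | seq p q => seq (map i p) (map i q)
  | ite k p q r => ite (i k) (map i p) (map i q) (map i r)
  | loop k q r => loop (i k) (map i q) (map i r)

theorem OExec.map {i : K → K'} (hi : Injective i) {p : OProg K} {S S' : St K} {t : ℕ}
    (h : OExec Ω p S S' t) : ∀ T : St K', (∀ k, T (i k) = S k) →
      OExec Ω (p.map i) T (ov i T S') t := by
  induction h with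
  | skip S =>
    intro T hT
    rw [ov_self T S hT]
    exact OExec.skip T
  | push k b S =>
    intro T hT
    rw [← update_eq_ov hi T S hT, ← hT]
    exact OExec.push (i k) b T
  | pop k S =>
    intro T hT
    rw [← update_eq_ov hi T S hT, ← hT]
    exact OExec.pop (i k) T
  | ask k S =>
    intro T hT
    rw [← update_eq_ov hi T S hT, ← hT]
    exact OExec.ask (i k) T
  | @seq p q S S' S'' t t' _ _ ih1 ih2 =>
    intro T hT
    have h1 := ih1 T hT
    have h2 := ih2 (ov i T S') (fun k => ov_apply hi _ _ _)
    rw [ov_ov] at h2
    exact OExec.seq h1 h2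
  | @ite_nil k p q r S S' t hk _ ih =>
    intro T hT
    exact OExec.ite_nil (by rw [hT, hk]) (ih T hT)
  | @ite_false k p q r S S' t w hk _ ih =>
    intro T hT
    exact OExec.ite_false (w := w) (by rw [hT, hk]) (ih T hT)
  | @ite_true k p q r S S' t w hk _ ih =>
    intro T hT
    exact OExec.ite_true (w := w) (by rw [hT, hk]) (ih T hT)
  | @loop_nil k q r S hk =>
    intro T hT
    rw [ov_self T S hT]
    exact OExec.loop_nil (by rw [hT, hk])
  | @loop_false k q r S S' S'' t t' w hk _ _ ih1 ih2 =>
    intro T hT
    have h1 := ih1 (update T (i k) w) (fun j => by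
      rw [update_eq_ov hi T S hT, ov_apply hi])
    have h2 := ih2 (ov i (update T (i k) w) S') (fun j => ov_apply hi _ _ _)
    have e : ov i (ov i (update T (i k) w) S') S'' = ov i T S'' := by
      rw [ov_ov, update_eq_ov hi T S hT, ov_ov]
    rw [e] at h2
    exact OExec.loop_false (w := w) (by rw [hT, hk]) h1 h2
  | @loop_true k q r S S' S'' t t' w hk _ _ ih1 ih2 =>
    intro T hT
    have h1 := ih1 (update T (i k) w) (fun j => by
      rw [update_eq_ov hi T S hT, ov_apply hi])
    have h2 := ih2 (ov i (update T (i k) w) S') (fun j => ov_apply hi _ _ _)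
    have e : ov i (ov i (update T (i k) w) S') S'' = ov i T S'' := by
      rw [ov_ov, update_eq_ov hi T S hT, ov_ov]
    rw [e] at h2
    exact OExec.loop_true (w := w) (by rw [hT, hk]) h1 h2

theorem OExec.inl {p : OProg K} {S S' : St K} {t : ℕ} (h : OExec Ω p S S' t) (R : St K') :
    OExec Ω (p.map (Sum.inl : K → K ⊕ K')) (Sum.elim S R) (Sum.elim S' R) t := by
  have := h.map Sum.inl_injective (Sum.elim S R) (fun k => rfl)
  rwa [ov_inl] at this

theorem OExec.inr {p : OProg K'} {S S' : St K'} {t : ℕ} (h : OExec Ω p S S' t) (R : St K) :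
    OExec Ω (p.map (Sum.inr : K' → K ⊕ K')) (Sum.elim R S) (Sum.elim R S') t := by
  have := h.map Sum.inr_injective (Sum.elim R S) (fun k => rfl)
  rwa [ov_inr] at this

theorem OExec.tot_le [Fintype K] {p : OProg K} {S S' : St K} {t : ℕ} (h : OExec Ω p S S' t) :
    tot S' ≤ tot S + t := by
  induction h with
  | skip S => omega
  | push k b S =>
    have := tot_update S k (b :: S k)
    simp only [List.length_cons] at this
    omega
  | pop k S =>
    have := tot_update S k (S k).tail
    simp only [List.length_tail] at this
    omega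
  | ask k S =>
    have := tot_update S k [ans Ω (S k)]
    simp only [List.length_cons, List.length_nil] at this
    omega
  | seq _ _ ih1 ih2 => omega
  | ite_nil _ _ ih => omega
  | ite_false _ _ ih => omega
  | ite_true _ _ ih => omega
  | loop_nil _ => omega
  | @loop_false k q r S S' S'' t t' w hk _ _ ih1 ih2 =>
    have := tot_update S k w
    rw [hk] at this
    simp only [List.length_cons] at this
    omega
  | @loop_true k q r S S' S'' t t' w hk _ _ ih1 ih2 =>
    have := tot_update S k w
    rw [hk] at this
    simp only [List.length_cons] at this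
    omega

/-- Move the content of `a` on top of `b`, reversing it. -/
def moveRev (a b : K) : OProg K := loop a (push b false) (push b true)

theorem exec_moveRev {a b : K} (hab : a ≠ b) : ∀ (l : List Bool) (S : St K), S a = l →
    OExec Ω (moveRev a b) S (update (update S a []) b (l.reverse ++ S b)) (2 * l.length + 1) := by
  intro l
  induction l with
  | nil =>
    intro S hS
    have e : update (update S a []) b ([].reverse ++ S b) = S := by
      rw [← hS]
      simp
      exact hS
    rw [e]
    exact OExec.loop_nil hS
  | cons c l ih =>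
    intro S hS
    have h2 := ih (update (update S a l) b (c :: S b)) (by
      rw [update_of_ne hab]; simp)
    have h1 : OExec Ω (push b c) (update S a l) (update (update S a l) b (c :: S b)) 1 := by
      have := OExec.push (Ω := Ω) b c (update S a l)
      rwa [update_of_ne (Ne.symm hab)] at this
    have e : update (update (update (update S a l) b (c :: S b)) a []) b
        (l.reverse ++ update (update S a l) b (c :: S b) b) =
        update (update S a []) b ((c :: l).reverse ++ S b) := by
      funext k
      by_cases hkb : k = b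
      · subst hkb; simp
      · by_cases hka : k = a
        · subst hka; simp [hkb]
        · simp [hkb, hka]
    rw [e] at h2
    have e2 : 2 * (c :: l).length + 1 = 1 + (2 * l.length + 1) + 1 := by
      simp only [List.length_cons]; ring
    rw [e2]
    cases c with
    | false => exact OExec.loop_false hS h1 h2
    | true => exact OExec.loop_true hS h1 h2

/-- Move the content of `a` on top of `b` and of `c`, reversing it. -/
def moveRev2 (a b c : K) : OProg K :=
  loop a (seq (push b false) (push c false)) (seq (push b true) (push c true))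

theorem exec_moveRev2 {a b c : K} (hab : a ≠ b) (hac : a ≠ c) (hbc : b ≠ c) :
    ∀ (l : List Bool) (S : St K), S a = l →
    OExec Ω (moveRev2 a b c) S
      (update (update (update S a []) b (l.reverse ++ S b)) c (l.reverse ++ S c))
      (3 * l.length + 1) := by
  intro l
  induction l with
  | nil =>
    intro S hS
    have e : update (update (update S a []) b ([].reverse ++ S b)) c ([].reverse ++ S c) = S := by
      funext k
      by_cases hkc : k = c
      · subst hkc; simp
      · by_cases hkb : k = b
        · subst hkb; simp [hkc]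
        · by_cases hka : k = a
          · subst hka; simp [hkc, hkb, hS]
          · simp [hkc, hkb, hka]
    rw [e]
    exact OExec.loop_nil hS
  | cons d l ih =>
    intro S hS
    have h2 := ih (update (update (update S a l) b (d :: S b)) c (d :: S c)) (by
      rw [update_of_ne hac, update_of_ne hab]; simp)
    have h1 : OExec Ω (seq (push b d) (push c d)) (update S a l)
        (update (update (update S a l) b (d :: S b)) c (d :: S c)) 2 := by
      have h3 := OExec.push (Ω := Ω) b d (update S a l)
      rw [update_of_ne (Ne.symm hab)] at h3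
      have h4 := OExec.push (Ω := Ω) c d (update (update S a l) b (d :: S b))
      rw [update_of_ne (Ne.symm hbc), update_of_ne (Ne.symm hac)] at h4
      exact OExec.seq h3 h4
    have e : update (update (update (update (update (update S a l) b (d :: S b)) c (d :: S c))
        a []) b (l.reverse ++ update (update (update S a l) b (d :: S b)) c (d :: S c) b)) c
        (l.reverse ++ update (update (update S a l) b (d :: S b)) c (d :: S c) c) =
        update (update (update S a []) b ((d :: l).reverse ++ S b)) c
          ((d :: l).reverse ++ S c) := by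
      funext k
      by_cases hkc : k = c
      · subst hkc; simp
      · by_cases hkb : k = b
        · subst hkb; simp [hkc]
        · by_cases hka : k = a
          · subst hka; simp [hkc, hkb]
          · simp [hkc, hkb, hka]
    rw [e] at h2
    have e2 : 3 * (d :: l).length + 1 = 2 + (3 * l.length + 1) + 1 := by
      simp only [List.length_cons]; ring
    rw [e2]
    cases d with
    | false => exact OExec.loop_false hS h1 h2
    | true => exact OExec.loop_true hS h1 h2

/-- Empty the register `a`. -/
def clear (a : K) : OProg K := loop a skip skip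

theorem exec_clear {a : K} : ∀ (l : List Bool) (S : St K), S a = l →
    OExec Ω (clear a) S (update S a []) (2 * l.length + 1) := by
  intro l
  induction l with
  | nil =>
    intro S hS
    have e : update S a [] = S := by rw [← hS]; simp
    rw [e]
    exact OExec.loop_nil hS
  | cons c l ih =>
    intro S hS
    have h2 := ih (update S a l) (by simp)
    have e : update (update S a l) a [] = update S a [] := by simp
    rw [e] at h2
    have h1 := OExec.skip (Ω := Ω) (update S a l)
    have e2 : 2 * (c :: l).length + 1 = 1 + (2 * l.length + 1) + 1 := by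
      simp only [List.length_cons]; ring
    rw [e2]
    cases c with
    | false => exact OExec.loop_false hS h1 h2
    | true => exact OExec.loop_true hS h1 h2

theorem OExec.cast {p : OProg K} {S S' S₁ S₁' : St K} {t t' : ℕ} (h : OExec Ω p S S' t)
    (hS : S = S₁) (hS' : S' = S₁') (ht : t = t') : OExec Ω p S₁ S₁' t' := by
  subst hS hS' ht
  exact h

/-- `p` computes `f` from register `k₀` to register `k₁` in time `P`. -/
def OComp (Ω : Set (List Bool)) {K : Type} [DecidableEq K] (p : OProg K) (k₀ k₁ : K) (f : List Bool → List Bool)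
    (P : Polynomial ℕ) : Prop :=
  ∀ x, ∃ t, t ≤ P.eval x.length ∧ OExec Ω p (single k₀ x) (single k₁ (f x)) t

theorem OComp.progFP {K : Type} [DecidableEq K] [Fintype K] {p : OProg K} {k₀ k₁ : K}
    {f : List Bool → List Bool} {P : Polynomial ℕ} (h : OComp Ω p k₀ k₁ f P) : OFP Ω f :=
  ⟨K, inferInstance, inferInstance, k₀, k₁, p, P, h⟩

theorem OFP.length_le {f : List Bool → List Bool} (hf : OFP Ω f) :
    ∃ p : Polynomial ℕ, ∀ x, (f x).length ≤ p.eval x.length := by
  obtain ⟨K, _, _, k₀, k₁, p, P, h⟩ := hf
  refine ⟨P + Polynomial.X, fun x => ?_⟩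
  obtain ⟨t, ht, he⟩ := h x
  have := he.tot_le
  rw [tot_single, tot_single] at this
  simp only [Polynomial.eval_add, Polynomial.eval_X]
  omega

theorem OFP.comp_on {f v : List Bool → List Bool} (hf : OFP Ω f)
    {Kg : Type} [DecidableEq Kg] [Fintype Kg] (g₀ g₁ : Kg) (pg : OProg Kg) (Pg : Polynomial ℕ)
    (hg : ∀ x, ∃ t, t ≤ Pg.eval x.length ∧ OExec Ω pg (single g₀ (f x)) (single g₁ (v x)) t) :
    OFP Ω v := by
  obtain ⟨Kf, _, _, f₀, f₁, pf, Pf, hf⟩ := hf
  let p : OProg (Kf ⊕ (Kg ⊕ Unit)) :=
    seq (pf.map Sum.inl) (seq (moveRev (Sum.inl f₁) (Sum.inr (Sum.inr ())))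
      (seq (moveRev (Sum.inr (Sum.inr ())) (Sum.inr (Sum.inl g₀)))
        ((pg.map Sum.inl).map Sum.inr)))
  refine OComp.progFP (p := p) (k₀ := Sum.inl f₀) (k₁ := Sum.inr (Sum.inl g₁))
    (P := Pf + (2 * (Pf + Polynomial.X) + 1) + (2 * (Pf + Polynomial.X) + 1) + Pg)
    (fun x => ?_)
  obtain ⟨t, ht, he⟩ := hf x
  obtain ⟨t', ht', he'⟩ := hg x
  have hlen : (f x).length ≤ Pf.eval x.length + x.length := by
    have := he.tot_le
    rw [tot_single, tot_single] at this
    omega
  have e1 : OExec Ω (pf.map Sum.inl)
      (Sum.elim (single f₀ x) (Sum.elim (bot Kg) (bot Unit)))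
      (Sum.elim (single f₁ (f x)) (Sum.elim (bot Kg) (bot Unit))) t := he.inl _
  have e2 : OExec Ω (moveRev (Sum.inl f₁ : Kf ⊕ (Kg ⊕ Unit)) (Sum.inr (Sum.inr ())))
      (Sum.elim (single f₁ (f x)) (Sum.elim (bot Kg) (bot Unit)))
      (Sum.elim (bot _) (Sum.elim (bot _) (single () (f x).reverse)))
      (2 * (f x).length + 1) := by
    refine (exec_moveRev (by simp) (f x) _ (by simp only [Sum.elim_inl, single_self])).cast
      rfl ?_ rfl
    simp only [Sum.update_elim_inl, Sum.update_elim_inr, Sum.elim_inr, bot_apply,
      update_single, single_nil, update_bot, List.append_nil]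
  have e3 : OExec Ω (moveRev (Sum.inr (Sum.inr ()) : Kf ⊕ (Kg ⊕ Unit)) (Sum.inr (Sum.inl g₀)))
      (Sum.elim (bot _) (Sum.elim (bot _) (single () (f x).reverse)))
      (Sum.elim (bot _) (Sum.elim (single g₀ (f x)) (bot _)))
      (2 * (f x).reverse.length + 1) := by
    refine (exec_moveRev (by simp) (f x).reverse _
      (by simp only [Sum.elim_inr, single_self])).cast rfl ?_ rfl
    simp only [Sum.update_elim_inl, Sum.update_elim_inr, Sum.elim_inr, Sum.elim_inl, bot_apply,
      update_single, single_nil, update_bot, List.append_nil, List.reverse_reverse]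
  have e4 : OExec Ω ((pg.map Sum.inl).map Sum.inr)
      (Sum.elim (bot Kf) (Sum.elim (single g₀ (f x)) (bot Unit)))
      (Sum.elim (bot _) (Sum.elim (single g₁ (v x)) (bot _))) t' := (he'.inl _).inr _
  have e := OExec.seq e1 (OExec.seq e2 (OExec.seq e3 e4))
  refine ⟨_, ?_, e.cast ?_ ?_ rfl⟩
  · simp only [Polynomial.eval_add, Polynomial.eval_mul, Polynomial.eval_X, Polynomial.eval_one,
      Polynomial.eval_ofNat, List.length_reverse]
    omega
  · rw [single_inl, bot_sum]
  · rw [single_inr, single_inl]

theorem OFP.comp {g f : List Bool → List Bool} (hg : OFP Ω g) (hf : OFP Ω f) :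
    OFP Ω (fun x => g (f x)) := by
  obtain ⟨P, hP⟩ := hf.length_le
  obtain ⟨Kg, _, _, g₀, g₁, pg, Pg, hg⟩ := hg
  refine hf.comp_on g₀ g₁ pg (Pg.comp P) (fun x => ?_)
  obtain ⟨t, ht, he⟩ := hg (f x)
  refine ⟨t, ht.trans ?_, he⟩
  rw [Polynomial.eval_comp]
  exact poly_mono _ (hP x)

/-- Pop the bits `b` of `a` and push `b`, then `true`, on `c`. -/
def weave {K : Type} (a c : K) : OProg K :=
  loop a (seq (push c false) (push c true)) (seq (push c true) (push c true))

theorem exec_weave {K : Type} [DecidableEq K] {a c : K} (hac : a ≠ c) :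
    ∀ (l : List Bool) (S : St K), S a = l →
    OExec Ω (weave a c) S
      (update (update S a []) c ((l.reverse.flatMap fun b => [true, b]) ++ S c))
      (3 * l.length + 1) := by
  intro l
  induction l with
  | nil =>
    intro S hS
    have e : update (update S a []) c ((([] : List Bool).reverse.flatMap fun b => [true, b]) ++ S c)
        = S := by
      funext k
      by_cases hkc : k = c
      · subst hkc; simp
      · by_cases hka : k = a
        · subst hka; simp [hkc, hS]
        · simp [hkc, hka]
    rw [e]
    exact OExec.loop_nil hS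
  | cons d l ih =>
    intro S hS
    have h2 := ih (update (update S a l) c (true :: d :: S c)) (by
      rw [update_of_ne hac]; simp)
    have h1 : OExec Ω (seq (push c d) (push c true)) (update S a l)
        (update (update S a l) c (true :: d :: S c)) 2 := by
      have h3 := OExec.push (Ω := Ω) c d (update S a l)
      rw [update_of_ne (Ne.symm hac)] at h3
      have h4 := OExec.push (Ω := Ω) c true (update (update S a l) c (d :: S c))
      rw [update_self, update_idem] at h4
      exact OExec.seq h3 h4
    have e : update (update (update (update S a l) c (true :: d :: S c)) a []) c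
        ((l.reverse.flatMap fun b => [true, b]) ++
          update (update S a l) c (true :: d :: S c) c) =
        update (update S a []) c (((d :: l).reverse.flatMap fun b => [true, b]) ++ S c) := by
      funext k
      by_cases hkc : k = c
      · subst hkc; simp
      · by_cases hka : k = a
        · subst hka; simp [hkc]
        · simp [hkc, hka]
    rw [e] at h2
    have e2 : 3 * (d :: l).length + 1 = 2 + (3 * l.length + 1) + 1 := by
      simp only [List.length_cons]; ring
    rw [e2]
    cases d with
    | false => exact OExec.loop_false hS h1 h2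
    | true => exact OExec.loop_true hS h1 h2

/-- Length bound for the output of a computation. -/
theorem OComp.length_le {K : Type} [DecidableEq K] [Fintype K] {p : OProg K} {k₀ k₁ : K}
    {f : List Bool → List Bool} {P : Polynomial ℕ} (h : OComp Ω p k₀ k₁ f P) (x : List Bool) :
    (f x).length ≤ P.eval x.length + x.length := by
  obtain ⟨t, ht, he⟩ := h x
  have := he.tot_le
  rw [tot_single, tot_single] at this
  omega

theorem mv {K : Type} [DecidableEq K] {a b : K} {S S' : St K} {l : List Bool} (hab : a ≠ b)
    (hl : S a = l) (hS : update (update S a []) b (l.reverse ++ S b) = S') :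
    OExec Ω (moveRev a b) S S' (2 * l.length + 1) := hS ▸ exec_moveRev hab l S hl

theorem mv2 {K : Type} [DecidableEq K] {a b c : K} {S S' : St K} {l : List Bool} (hab : a ≠ b)
    (hac : a ≠ c) (hbc : b ≠ c) (hl : S a = l)
    (hS : update (update (update S a []) b (l.reverse ++ S b)) c (l.reverse ++ S c) = S') :
    OExec Ω (moveRev2 a b c) S S' (3 * l.length + 1) := hS ▸ exec_moveRev2 hab hac hbc l S hl

theorem psh {K : Type} [DecidableEq K] {a : K} {b : Bool} {S S' : St K}
    (hS : update S a (b :: S a) = S') : OExec Ω (push a b) S S' 1 := hS ▸ OExec.push a b S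

theorem pp {K : Type} [DecidableEq K] {a : K} {S S' : St K}
    (hS : update S a (S a).tail = S') : OExec Ω (pop a) S S' 1 := hS ▸ OExec.pop a S

theorem cl {K : Type} [DecidableEq K] {a : K} {S S' : St K} {l : List Bool}
    (hl : S a = l) (hS : update S a [] = S') :
    OExec Ω (clear a) S S' (2 * l.length + 1) := hS ▸ exec_clear l S hl

theorem wv {K : Type} [DecidableEq K] {a c : K} {S S' : St K} {l : List Bool} (hac : a ≠ c)
    (hl : S a = l)
    (hS : update (update S a []) c ((l.reverse.flatMap fun b => [true, b]) ++ S c) = S') :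
    OExec Ω (weave a c) S S' (3 * l.length + 1) := hS ▸ exec_weave hac l S hl

section Two

variable {A B : Type} [DecidableEq A] [DecidableEq B]

variable (S : St A) (T : St B) (u v w : List Bool) (j : A) (k : B)

theorem exec_f {p : OProg A} {S S' : St A} {t : ℕ} (h : OExec Ω p S S' t) (T : St B)
    (u v : List Bool) :
    OExec Ω (p.map (rf : A → K2 A B)) (st2 S T u v) (st2 S' T u v) t := h.inl _

theorem exec_g {p : OProg B} {T T' : St B} {t : ℕ} (h : OExec Ω p T T' t) (S : St A)
    (u v : List Bool) :
    OExec Ω (p.map (rg : B → K2 A B)) (st2 S T u v) (st2 S T' u v) t := by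
  have := (h.inl (Sum.elim (one u) (one v))).inr S
  have e : ∀ q : OProg B, (q.map (Sum.inl : B → B ⊕ (Unit ⊕ Unit))).map
      (Sum.inr : _ → A ⊕ _) = q.map (rg : B → K2 A B) := by
    intro q
    induction q with
    | skip => rfl
    | push k b => rfl
    | pop k => rfl
    | ask k => rfl
    | seq p q ih1 ih2 => simp only [map, ih1, ih2]
    | ite k p q r ih1 ih2 ih3 => simp only [map, ih1, ih2, ih3]; rfl
    | loop k q r ih1 ih2 => simp only [map, ih1, ih2]; rfl
  rw [e] at this
  exact this

end Two

theorem OFP.pair {f g : List Bool → List Bool} (hf : OFP Ω f) (hg : OFP Ω g) :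
    OFP Ω (fun x => pr (f x) (g x)) := by
  obtain ⟨Kf, _, _, f₀, f₁, pf, Pf, hf⟩ := hf
  obtain ⟨Kg, _, _, g₀, g₁, pg, Pg, hg⟩ := hg
  refine OComp.progFP (K := K2 Kf Kg)
    (p := seq (moveRev ra rt) (seq (moveRev2 rt (rf f₀) (rg g₀)) (seq (pf.map rf)
      (seq (pg.map rg) (seq (moveRev (rg g₁) rt) (seq (moveRev rt ra)
        (seq (push ra false) (seq (moveRev (rf f₁) rt) (weave rt ra)))))))))
    (k₀ := ra) (k₁ := ra)
    (P := (2 * Polynomial.X + 1) + (3 * Polynomial.X + 1) + Pf + Pg +
      4 * (Pg + Polynomial.X) + 3 + 5 * (Pf + Polynomial.X) + 2) (fun x => ?_)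
  have hlf := OComp.length_le (p := pf) (k₀ := f₀) (k₁ := f₁) hf x
  have hlg := OComp.length_le (p := pg) (k₀ := g₀) (k₁ := g₁) hg x
  obtain ⟨tf, htf, hef⟩ := hf x
  obtain ⟨tg, htg, heg⟩ := hg x
  have e1 : OExec Ω (moveRev ra rt) (st2 (bot Kf) (bot Kg) x []) (st2 (bot _) (bot _) [] x.reverse)
      (2 * x.length + 1) :=
    mv (by simp) (by simp) (by simp)
  have e2 : OExec Ω (moveRev2 rt (rf f₀) (rg g₀)) (st2 (bot _) (bot _) [] x.reverse)
      (st2 (single f₀ x) (single g₀ x) [] []) (3 * x.reverse.length + 1) :=
    mv2 (by simp) (by simp) (by simp) (by simp) (by simp)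
  have e3 := exec_f hef (single g₀ x) [] []
  have e4 := exec_g heg (single f₁ (f x)) [] []
  have e5 : OExec Ω (moveRev (rg g₁) rt) (st2 (single f₁ (f x)) (single g₁ (g x)) [] [])
      (st2 (single f₁ (f x)) (bot _) [] (g x).reverse) (2 * (g x).length + 1) :=
    mv (by simp) (by simp) (by simp)
  have e6 : OExec Ω (moveRev rt ra) (st2 (single f₁ (f x)) (bot Kg) [] (g x).reverse)
      (st2 (single f₁ (f x)) (bot _) (g x) []) (2 * (g x).reverse.length + 1) :=
    mv (by simp) (by simp) (by simp)
  have e7 : OExec Ω (push ra false) (st2 (single f₁ (f x)) (bot Kg) (g x) [])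
      (st2 (single f₁ (f x)) (bot _) (false :: g x) []) 1 :=
    psh (by simp)
  have e8 : OExec Ω (moveRev (rf f₁) rt) (st2 (single f₁ (f x)) (bot Kg) (false :: g x) [])
      (st2 (bot _) (bot _) (false :: g x) (f x).reverse) (2 * (f x).length + 1) :=
    mv (by simp) (by simp) (by simp)
  have e9 : OExec Ω (weave rt ra) (st2 (bot Kf) (bot Kg) (false :: g x) (f x).reverse)
      (st2 (bot _) (bot _) (pr (f x) (g x)) []) (3 * (f x).reverse.length + 1) :=
    wv (by simp) (by simp) (by simp [pr])
  have e := OExec.seq e1 (OExec.seq e2 (OExec.seq e3 (OExec.seq e4 (OExec.seq e5 (OExec.seq e6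
    (OExec.seq e7 (OExec.seq e8 e9)))))))
  refine ⟨_, ?_, e.cast ?_ ?_ rfl⟩
  · simp only [Polynomial.eval_add, Polynomial.eval_mul, Polynomial.eval_X, Polynomial.eval_one,
      Polynomial.eval_ofNat, List.length_reverse]
    omega
  · rw [single_ra]
  · rw [single_ra]

end OProg

end Pool.Agent.RelPoly
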