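import Pool.Agent.RelPoly.Core

set_option linter.dupNamespace false
set_option linter.unusedSectionVars false

namespace Pool.Agent.RelPoly

open Pool.Agent.PolyTime hiding FP PolyTime

variable {C : PCl}

/-- output length of a polynomial-time function, power form -/
protected theorem FC.length_pow {f : List Bool → List Bool} (hf : FC C f) :
    ∃ k, ∀ x, (f x).length ≤ (x.length + 2) ^ k := by
  obtain ⟨p, hp⟩ := hf.length_le
  obtain ⟨k, hk⟩ := exists_pow_bound p
  exact ⟨k, fun x => (hp x).trans (hk _)⟩

protected theorem FC.pb {f : List Bool → List Bool} (hf : FC C f) : PB (fun x => (f x).length) :=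
  hf.length_pow

/-- iteration, with a polynomial bound in predicate form -/
protected theorem FC.iterPB {f g h : List Bool → List Bool} (hf : FC C f) (hg : FC C g) (hh : FC C h)
    {b : List Bool → ℕ} (hb : PB b)
    (hp : ∀ x i, i ≤ (g x).length → (f^[i] (h x)).length ≤ b x) :
    FC C (fun x => f^[(g x).length] (h x)) := by
  obtain ⟨k, hk⟩ := hb
  refine FC.iter hf hg hh ((Polynomial.X + 2) ^ k) (fun x i hi => ?_)
  rw [pow_bound_eval]
  exact (hp x i hi).trans (hk x)

protected theorem FC.congr {f g : List Bool → List Bool} (hf : FC C f) (h : ∀ x, f x = g x) : FC C g := by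
  have : f = g := funext h
  rwa [← this]

protected theorem FC.const (w : List Bool) : FC C (fun _ => w) := by
  induction w with
  | nil => exact FC.nil
  | cons b w ih => exact (FC.cons b).comp ih

protected theorem FC.cons' (b : Bool) {f : List Bool → List Bool} (hf : FC C f) : FC C (fun x => b :: f x) :=
  (FC.cons b).comp hf

protected theorem FC.tail' {f : List Bool → List Bool} (hf : FC C f) : FC C (fun x => (f x).tail) :=
  FC.tail.comp hf

protected theorem FC.p1' {f : List Bool → List Bool} (hf : FC C f) : FC C (fun x => PolyTime.p1 (f x)) :=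
  FC.p1.comp hf

protected theorem FC.p2' {f : List Bool → List Bool} (hf : FC C f) : FC C (fun x => PolyTime.p2 (f x)) :=
  FC.p2.comp hf

protected theorem FC.ite_nil {c f g : List Bool → List Bool} (hc : FC C c) (hf : FC C f) (hg : FC C g) :
    FC C (fun x => if c x = [] then f x else g x) := by
  refine (FC.cases hc hf hg hg).congr (fun x => ?_)
  rcases c x with _ | ⟨_ | _, _⟩ <;> simp

protected theorem FC.moveStep : FC C moveStep :=
  FC.cases FC.p1 FC.id (FC.pair (FC.tail' FC.p1) (FC.cons' false FC.p2))
    (FC.pair (FC.tail' FC.p1) (FC.cons' true FC.p2))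

/-- `moves n u v`, with the number of moves given by the length of a string -/
protected theorem FC.moves {n u v : List Bool → List Bool} (hn : FC C n) (hu : FC C u) (hv : FC C v) :
    FC C (fun x => PolyTime.moveStep^[(n x).length] (pr (u x) (v x))) := by
  refine FC.iterPB FC.moveStep hn (FC.pair hu hv)
    (b := fun x => 2 * (u x).length + 1 + ((u x).length + (v x).length)) ?_ ?_
  · exact (((PB.const 2).mul hu.pb).add (PB.const 1)).add (hu.pb.add hv.pb)
  · intro x i _
    exact length_moveStep_iter _ _ _

protected theorem FC.revApp {u v : List Bool → List Bool} (hu : FC C u) (hv : FC C v) :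
    FC C (fun x => (u x).reverse ++ v x) := by
  refine (FC.p2' (FC.moves hu hu hv)).congr (fun x => ?_)
  rw [moveStep_iter]
  simp

protected theorem FC.reverse {u : List Bool → List Bool} (hu : FC C u) : FC C (fun x => (u x).reverse) :=
  (FC.revApp hu FC.nil).congr (fun x => by simp)

protected theorem FC.append {u v : List Bool → List Bool} (hu : FC C u) (hv : FC C v) :
    FC C (fun x => u x ++ v x) :=
  (FC.revApp (FC.reverse hu) hv).congr (fun x => by simp)

protected theorem FC.takeLen {n u : List Bool → List Bool} (hn : FC C n) (hu : FC C u) :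
    FC C (fun x => (u x).take (n x).length) := by
  refine (FC.reverse (FC.p2' (FC.moves hn hu FC.nil))).congr (fun x => ?_)
  rw [moveStep_iter]
  simp

protected theorem FC.dropLen {n u : List Bool → List Bool} (hn : FC C n) (hu : FC C u) :
    FC C (fun x => (u x).drop (n x).length) := by
  refine (FC.p1' (FC.moves hn hu FC.nil)).congr (fun x => ?_)
  rw [moveStep_iter]
  simp

protected theorem FC.appStep : FC C appStep := FC.pair FC.p1 (FC.append FC.p1 FC.p2)

protected theorem FC.umul {u v : List Bool → List Bool} (hu : FC C u) (hv : FC C v) :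
    FC C (fun x => umul (u x) (v x)) := by
  refine FC.p2' ?_
  refine FC.iterPB FC.appStep hu (FC.pair hv FC.nil)
    (b := fun x => 2 * (v x).length + 1 + (u x).length * (v x).length) ?_ ?_
  · exact (((PB.const 2).mul hv.pb).add (PB.const 1)).add (hu.pb.mul hv.pb)
  · intro x i hi
    obtain ⟨r, h1, h2⟩ := appStep_iter i (v x) []
    rw [h1, length_pr, h2]
    have := Nat.mul_le_mul_right (v x).length hi
    simp only [List.length_nil]
    omega

protected theorem FC.pad (k : ℕ) : FC C (pad k) := by
  induction k with
  | zero => exact FC.const [true]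
  | succ k ih =>
    exact FC.umul (FC.cons' true (FC.cons' true FC.id)) ih

protected theorem FC.truncStep {f : List Bool → List Bool} (hf : FC C f) : FC C (truncStep f) :=
  FC.pair FC.p1 (FC.takeLen FC.p1 (hf.comp FC.p2))

/-- Bounded iteration, where the size bound is only required on the set `D`. -/
protected theorem FC.iterOn {f g h : List Bool → List Bool} (hf : FC C f) (hg : FC C g) (hh : FC C h)
    (D : Set (List Bool)) (k : ℕ)
    (hb : ∀ x ∈ D, ∀ i ≤ (g x).length, (f^[i] (h x)).length ≤ (x.length + 2) ^ k) :
    ∃ F, FC C F ∧ ∀ x ∈ D, F x = f^[(g x).length] (h x) := by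
  refine ⟨fun x => PolyTime.p2 ((PolyTime.truncStep f)^[(g x).length]
    (pr (PolyTime.pad k x) (h x))), ?_, ?_⟩
  · refine FC.p2' (FC.iterPB (FC.truncStep hf) hg (FC.pair (FC.pad k) hh)
      (b := fun x => 2 * (PolyTime.pad k x).length + 1 +
        ((PolyTime.pad k x).length + (h x).length)) ?_ ?_)
    · exact (((PB.const 2).mul (FC.pad (C := C) k).pb).add (PB.const 1)).add ((FC.pad (C := C) k).pb.add hh.pb)
    · intro x i _
      obtain ⟨r, h1, h2⟩ := truncStep_iter_length f i (PolyTime.pad k x) (h x)
      rw [h1, length_pr]
      omega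
  · intro x hx
    beta_reduce
    rw [truncStep_iter_eq]
    · simp
    · intro i hi
      rw [length_pad]
      exact hb x hx i hi



end Pool.Agent.RelPoly
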