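import Pool.Agent.RelPoly.Str

set_option linter.dupNamespace false
set_option linter.unusedSectionVars false

namespace Pool.Agent.RelPoly

open Pool.Agent.PolyTime hiding FP PolyTime

variable {C : PCl}

section basic

variable {α β γ δ : Type} [PEnc α] [PEnc β] [PEnc γ] [PEnc δ]

protected theorem PT.congr {f g : α → β} (hf : PT C f) (h : ∀ a, f a = g a) : PT C g := by
  have : f = g := funext h
  rwa [← this]

@[fun_prop]
protected theorem PT.id : PT C (fun a : α => a) := ⟨fun x => x, FC.id, fun _ => rfl⟩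

@[fun_prop]
protected theorem PT.const (b : β) : PT C (fun _ : α => b) :=
  ⟨fun _ => enc b, FC.const _, fun _ => rfl⟩

@[fun_prop]
protected theorem PT.comp {g : β → γ} {f : α → β} (hg : PT C g) (hf : PT C f) :
    PT C (fun a => g (f a)) := by
  obtain ⟨G, hG, hG'⟩ := hg
  obtain ⟨F, hF, hF'⟩ := hf
  exact ⟨fun x => G (F x), hG.comp hF, fun a => by beta_reduce; rw [hF', hG']⟩

protected theorem PT.pbd {f : α → β} (hf : PT C f) : PBd (fun a => PolyTime.size (f a)) := by
  obtain ⟨F, hF, hF'⟩ := hf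
  obtain ⟨k, hk⟩ := hF.length_pow
  refine ⟨k, fun a => ?_⟩
  have := hk (enc a)
  rwa [hF'] at this

protected theorem PBd.comp {b : β → ℕ} {f : α → β} (hb : PBd b) (hf : PT C f) :
    PBd (fun a => b (f a)) := by
  obtain ⟨k, hk⟩ := hb
  obtain ⟨l, hl⟩ := (hf.pbd.add (PBd.const 2)).pow k
  exact ⟨l, fun a => (hk (f a)).trans (hl a)⟩

/-- the basic iteration principle: iterate `size (c a)` times -/
protected theorem PT.iterate_size {f : β → β} {g : α → β} {c : α → γ} (hf : PT C f)
    (hg : PT C g) (hc : PT C c) {b : α → ℕ} (hb : PBd b)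
    (h : ∀ a, ∀ i ≤ size (c a), size (f^[i] (g a)) ≤ b a) :
    PT C (fun a => f^[size (c a)] (g a)) := by
  obtain ⟨F, hF, hF'⟩ := hf
  obtain ⟨G, hG, hG'⟩ := hg
  obtain ⟨C, hC, hC'⟩ := hc
  obtain ⟨k, hk⟩ := hb
  have key : ∀ i b, F^[i] (enc b) = enc (f^[i] b) := by
    intro i
    induction i with
    | zero => intro b; rfl
    | succ i ih => intro b; rw [Function.iterate_succ_apply, Function.iterate_succ_apply, hF', ih]
  obtain ⟨R, hR, hR'⟩ := FC.iterOn hF hC hG (Set.range (enc : α → List Bool)) k (by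
    rintro _ ⟨a, rfl⟩ i hi
    rw [hG', key]
    rw [hC'] at hi
    exact (h a i hi).trans (hk a))
  refine ⟨R, hR, fun a => ?_⟩
  rw [hR' _ ⟨a, rfl⟩, hG', hC', key]
  rfl

end basic

section prod

variable {α β γ δ : Type} [PEnc α] [PEnc β] [PEnc γ] [PEnc δ]

@[fun_prop]
protected theorem PT.prodMk {f : α → β} {g : α → γ} (hf : PT C f) (hg : PT C g) :
    PT C (fun a => (f a, g a)) := by
  obtain ⟨F, hF, hF'⟩ := hf
  obtain ⟨G, hG, hG'⟩ := hg
  exact ⟨fun x => pr (F x) (G x), hF.pair hG, fun a => by beta_reduce; rw [hF', hG']; rfl⟩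

@[fun_prop]
protected theorem PT.fst' : PT C (fun p : α × β => p.1) :=
  ⟨p1, FC.p1, fun _ => p1_pr _ _⟩

@[fun_prop]
protected theorem PT.snd' : PT C (fun p : α × β => p.2) :=
  ⟨p2, FC.p2, fun _ => p2_pr _ _⟩

protected theorem PT.fst {f : α → β × γ} (hf : PT C f) : PT C (fun a => (f a).1) :=
  PT.fst'.comp hf

protected theorem PT.snd {f : α → β × γ} (hf : PT C f) : PT C (fun a => (f a).2) :=
  PT.snd'.comp hf

/-- two-argument composition -/
protected theorem PT.comp₂ {h : β → γ → δ} {f : α → β} {g : α → γ}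
    (hh : PT C (fun p : β × γ => h p.1 p.2)) (hf : PT C f) (hg : PT C g) :
    PT C (fun a => h (f a) (g a)) :=
  hh.comp (hf.prodMk hg)

end prod

section bool

variable {α β γ δ : Type} [PEnc α] [PEnc β] [PEnc γ] [PEnc δ]

@[fun_prop]
protected theorem PT.cond {c : α → Bool} {f g : α → β} (hc : PT C c) (hf : PT C f)
    (hg : PT C g) : PT C (fun a => cond (c a) (f a) (g a)) := by
  obtain ⟨C, hC, hC'⟩ := hc
  obtain ⟨F, hF, hF'⟩ := hf
  obtain ⟨G, hG, hG'⟩ := hg
  refine ⟨_, FC.cases hC hF hG hF, fun a => ?_⟩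
  rw [hC']
  cases h : c a <;> simp [enc_bool, hF', hG', h]

@[fun_prop]
protected theorem PT.ite {p : α → Prop} [DecidablePred p] {f g : α → β}
    (hc : PT C (fun a => decide (p a))) (hf : PT C f) (hg : PT C g) :
    PT C (fun a => if p a then f a else g a) :=
  (PT.cond hc hf hg).congr (fun a => by by_cases h : p a <;> simp [h])

@[fun_prop]
protected theorem PT.not {c : α → Bool} (hc : PT C c) : PT C (fun a => !(c a)) :=
  (PT.cond hc (PT.const false) (PT.const true)).congr
    (fun a => by cases c a <;> rfl)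

@[fun_prop]
protected theorem PT.and {c d : α → Bool} (hc : PT C c) (hd : PT C d) :
    PT C (fun a => c a && d a) :=
  (PT.cond hc hd (PT.const false)).congr (fun a => by cases c a <;> rfl)

@[fun_prop]
protected theorem PT.or {c d : α → Bool} (hc : PT C c) (hd : PT C d) :
    PT C (fun a => c a || d a) :=
  (PT.cond hc (PT.const true) hd).congr (fun a => by cases c a <;> rfl)

@[fun_prop]
protected theorem PT.xor {c d : α → Bool} (hc : PT C c) (hd : PT C d) :
    PT C (fun a => Bool.xor (c a) (d a)) :=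
  (PT.cond hc hd.not hd).congr (fun a => by cases c a <;> cases d a <;> rfl)

@[fun_prop]
protected theorem PT.decide_not {p : α → Prop} [DecidablePred p]
    (hp : PT C (fun a => decide (p a))) : PT C (fun a => decide (¬ p a)) :=
  hp.not.congr (fun a => by simp)

@[fun_prop]
protected theorem PT.decide_and {p q : α → Prop} [DecidablePred p] [DecidablePred q]
    (hp : PT C (fun a => decide (p a))) (hq : PT C (fun a => decide (q a))) :
    PT C (fun a => decide (p a ∧ q a)) :=
  (hp.and hq).congr (fun a => by simp)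

@[fun_prop]
protected theorem PT.decide_or {p q : α → Prop} [DecidablePred p] [DecidablePred q]
    (hp : PT C (fun a => decide (p a))) (hq : PT C (fun a => decide (q a))) :
    PT C (fun a => decide (p a ∨ q a)) :=
  (hp.or hq).congr (fun a => by simp)

@[fun_prop]
protected theorem PT.decide_imp {p q : α → Prop} [DecidablePred p] [DecidablePred q]
    (hp : PT C (fun a => decide (p a))) (hq : PT C (fun a => decide (q a))) :
    PT C (fun a => decide (p a → q a)) :=
  (hp.not.or hq).congr (fun a => by by_cases h : p a <;> simp [h])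

@[fun_prop]
protected theorem PT.decide_bool {c : α → Bool} (hc : PT C c) :
    PT C (fun a => decide (c a = true)) :=
  hc.congr (fun a => by simp)

protected theorem FC.eqStep : FC C eqStep :=
  FC.cases FC.p1 FC.id
    (FC.cases FC.p2 FC.id (FC.pair (FC.tail' FC.p1) (FC.tail' FC.p2)) FC.id)
    (FC.cases FC.p2 FC.id FC.id (FC.pair (FC.tail' FC.p1) (FC.tail' FC.p2)))

protected theorem FC.decideEq {u v : List Bool → List Bool} (hu : FC C u) (hv : FC C v) :
    FC C (fun x => [decide (u x = v x)]) := by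
  have h1 : FC C (fun x => PolyTime.eqStep^[(u x).length] (pr (u x) (v x))) := by
    refine FC.iterPB FC.eqStep hu (FC.pair hu hv)
      (b := fun x => 2 * (u x).length + 1 + (v x).length) ?_ ?_
    · exact (((PB.const 2).mul hu.pb).add (PB.const 1)).add hv.pb
    · intro x i _
      obtain ⟨u', v', h, h1, h2⟩ := eqStep_iter_pr i (u x) (v x)
      rw [h, length_pr]
      omega
  have h2 : FC C (fun x => if PolyTime.p1 (PolyTime.eqStep^[(u x).length] (pr (u x) (v x))) ++
      PolyTime.p2 (PolyTime.eqStep^[(u x).length] (pr (u x) (v x))) = [] then [true] else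
      [false]) :=
    FC.ite_nil (FC.append (FC.p1' h1) (FC.p2' h1)) (FC.const [true]) (FC.const [false])
  refine h2.congr (fun x => ?_)
  obtain ⟨u', v', h, -, -⟩ := eqStep_iter_pr (u x).length (u x) (v x)
  have h3 := eqStep_iff (u x) (v x) (u x).length le_rfl
  rw [h] at h3 ⊢
  rw [p1_pr, p2_pr]
  rw [pr_inj] at h3
  by_cases h4 : u x = v x
  · obtain ⟨rfl, rfl⟩ := h3.2 h4
    simp [h4]
  · have : ¬ (u' ++ v' = []) := by
      intro h5
      rw [List.append_eq_nil_iff] at h5
      exact h4 (h3.1 h5)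
    simp [h4, this]

@[fun_prop]
protected theorem PT.decideEq [DecidableEq β] {f g : α → β} (hf : PT C f) (hg : PT C g) :
    PT C (fun a => decide (f a = g a)) := by
  obtain ⟨F, hF, hF'⟩ := hf
  obtain ⟨G, hG, hG'⟩ := hg
  refine ⟨_, FC.decideEq hF hG, fun a => ?_⟩
  rw [hF', hG', enc_bool]
  simp only [enc_inj]

end bool



end Pool.Agent.RelPoly
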